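import Pool.Agent.Lib.MP_dff12b_nt.SpecV

/-!
# MP_dff12b_nt, theorem A, part V: Fin, the theorem for given data
-/

namespace Pool.Agent.MPdff.V

open Finset Filter Topology Pool.Agent.Results.MP_00e23e_nt

private theorem Fin_prs {u v : ℝ} {l : ℕ} : l ∈ prs u v ↔
    (1 ≤ l ∧ l ≤ ⌊v⌋₊) ∧ l.Prime ∧ u < l := by
  simp only [prs, Finset.mem_filter, Finset.mem_Icc]

private theorem Fin_be_pos (b : ℕ → ℝ) (i : ℕ) : 0 < be b i := by
  unfold be
  positivity

private theorem Fin_bp_pos {b : ℕ → ℝ} (hb : ∀ i, 2 ≤ b i) (i : ℕ) : 0 < bp b i :=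
  Finset.prod_pos fun j _ => by linarith [hb j]

private theorem Fin_bt_nonneg {b : ℕ → ℝ} (hb : ∀ i, 2 ≤ b i) (J : ℕ) : 0 ≤ bt b J :=
  Finset.sum_nonneg fun i _ => div_nonneg (by linarith [hb i]) (Fin_bp_pos hb i).le

private theorem Fin_err {δ c : ℝ} (hδ : 0 < δ) (hc : 0 < c) :
    ∀ᶠ x : ℝ in atTop, x / x ^ δ ≤ c * (x / Real.log x ^ 2) := by
  have h1 := isLittleO_log_rpow_rpow_atTop (2 : ℝ) hδ
  filter_upwards [h1.bound hc, eventually_gt_atTop (1 : ℝ)] with x h3 h4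
  have hL := Real.log_pos h4
  have hx0 : 0 < x := by linarith
  rw [Real.norm_of_nonneg (by positivity), Real.norm_of_nonneg (by positivity),
    Real.rpow_two] at h3
  rw [mul_div_assoc', div_le_div_iff₀ (by positivity) (by positivity)]
  calc x * Real.log x ^ 2 ≤ x * (c * x ^ δ) := by gcongr
    _ = c * x * x ^ δ := by ring

private theorem Fin_Gs {d : ℕ} {k : ℤ} {w a : ℕ} {b : ℕ → ℝ} {J : ℕ} {x : ℝ} {p : ℕ}
    (hp : p ∈ Gs d k w a b J x) : (1 ≤ p ∧ p ≤ ⌊x⌋₊) ∧ p.Prime ∧ Real.sqrt x < p := by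
  classical
  unfold Gs at hp
  rw [Finset.mem_filter, Finset.mem_Icc] at hp
  exact ⟨hp.1, hp.2.1, hp.2.2.1⟩

theorem tFin (hSqn : S_Sqn) (hVlo : S_Vlo) (hLwc : S_Lwc) (hYb : S_Yb) (hOm : S_Om) : S_Fin := by
  classical
  intro d k w a hD b J hB hlog
  have hd3 : (3 : ℝ) ≤ d := by exact_mod_cast hD.hd
  have hdw : (4 * d + 4 : ℝ) ≤ w := by exact_mod_cast hD.hdw
  have hφ : (0 : ℝ) < ((primorial w).totient : ℝ) := by
    exact_mod_cast Nat.totient_pos.2 (primorial_pos w)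
  obtain ⟨c, hc, e1⟩ := hVlo d k w a hD (1 / 400) (by norm_num) (by norm_num)
  have hBJ : 0 < bp b J := Fin_bp_pos hB J
  have hbt := Fin_bt_nonneg hB J
  -- the constant
  obtain ⟨c₁, hc₁⟩ : ∃ c₁ : ℝ, c₁ = 1 / 8 * (bp b J * c / ((primorial w).totient : ℝ)) := ⟨_, rfl⟩
  have hc₁0 : 0 < c₁ := by
    rw [hc₁]
    positivity
  have hc₂0 : 0 < c₁ / (12 * d) := by positivity
  have hd0 : (0 : ℝ) < 1 / d := by positivity
  have e2 := hLwc d k w a hD b J hB
  have e3 := hYb d k w a hD b J hB hlog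
  have e4 := Fin_err (Fin_be_pos b J) hc₂0
  have e5 := Fin_err hd0 hc₂0
  have e6 : ∀ᶠ x : ℝ in atTop, (w : ℝ) ≤ x ^ be b J :=
    (tendsto_rpow_atTop (Fin_be_pos b J)).eventually_ge_atTop _
  suffices hmain : ∀ᶠ x : ℝ in atTop, ∃ F : Finset ℕ,
      c₁ / 4 * x / (Real.log x) ^ 2 ≤ (F.card : ℝ) ∧
      ∀ p ∈ F, p.Prime ∧ (p : ℝ) ≤ x ∧ ∃ n : ℕ, 0 < n ∧ (n : ℤ) = (p : ℤ) ^ d + k ∧
        (ArithmeticFunction.cardFactors n : ℝ) ≤ d + J + 400000 * (1 + bt b J) ∧
        ∀ q : ℕ, q.Prime → q ∣ n → x ^ (Real.exp (-(bs b J)) / 400) < q by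
    obtain ⟨x0, hx0⟩ := Filter.eventually_atTop.1 hmain
    exact ⟨c₁ / 4, x0, by positivity, hx0⟩
  filter_upwards [e1, e2, e3, e4, e5, e6, eventually_ge_atTop (8 : ℝ),
    eventually_ge_atTop ((k.natAbs : ℝ) ^ 2)] with x h1 h2 h3 h4 h5 h6 h7 h8
  have hx0 : 0 < x := by linarith
  have hx1 : 1 < x := by linarith
  have hL := Real.log_pos hx1
  set G := Gs d k w a b J x with hG
  set u := x ^ be b J with hu
  set y := x ^ (1 - 1 / (d : ℝ)) with hy
  have hu2 : 2 ≤ u := by linarith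
  have hd1 : 1 / (d : ℝ) ≤ 1 / 3 := one_div_le_one_div_of_le (by norm_num) hd3
  have hy1 : 1 ≤ y := Real.one_le_rpow hx1.le (by linarith)
  have hyx : y ≤ x := by
    calc y ≤ x ^ (1 : ℝ) := Real.rpow_le_rpow_of_exponent_le hx1.le (by linarith)
      _ = x := Real.rpow_one x
  -- the lower bound for G
  have hGc : c₁ * (x / Real.log x ^ 2) ≤ (G.card : ℝ) := by
    refine le_trans ?_ h2
    have h9 : 0 ≤ Xx w x := by
      unfold Xx
      positivity
    calc c₁ * (x / Real.log x ^ 2) = 1 / 8 * (Xx w x * bp b J * (c / Real.log x)) := by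
          rw [hc₁]
          unfold Xx
          field_simp
      _ ≤ 1 / 8 * (Xx w x * bp b J * Vx d k w (1 / 400) x) := by gcongr
  -- Markov
  have hY0 : ∀ p, 0 ≤ Yp d k x p := by
    intro p
    unfold Yp
    refine Finset.sum_nonneg fun q hq => ?_
    have h9 := Fin_prs.1 (Finset.mem_filter.1 hq).1
    have h10 : (q : ℝ) ≤ x := ((Nat.le_floor_iff (by positivity)).1 h9.1.2).trans hyx
    have h11 : (0 : ℝ) < q := by exact_mod_cast h9.1.1
    rw [sub_nonneg, div_le_one hL]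
    exact Real.log_le_log h11 h10
  set b1 := G.filter (fun p => 104000 * (7 / 2 + 3 * bt b J) < Yp d k x p) with hb1
  set b2 := G.filter (fun p => ∃ q ∈ prs u y, ((q : ℤ) ^ 2) ∣ fv d k p) with hb2
  have hb1c : (b1.card : ℝ) ≤ (G.card : ℝ) / 2 := by
    have h9 : (b1.card : ℝ) * (104000 * (7 / 2 + 3 * bt b J)) ≤ ∑ p ∈ G, Yp d k x p := by
      calc (b1.card : ℝ) * (104000 * (7 / 2 + 3 * bt b J)) = ∑ p ∈ b1, 104000 * (7 / 2 + 3 * bt b J) := by
            rw [Finset.sum_const, nsmul_eq_mul]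
        _ ≤ ∑ p ∈ b1, Yp d k x p :=
            Finset.sum_le_sum fun p hp => (Finset.mem_filter.1 hp).2.le
        _ ≤ ∑ p ∈ G, Yp d k x p :=
            Finset.sum_le_sum_of_subset_of_nonneg (Finset.filter_subset _ _) fun p _ _ => hY0 p
    have h10 : (b1.card : ℝ) * (104000 * (7 / 2 + 3 * bt b J)) ≤ (G.card : ℝ) / 2 * (104000 * (7 / 2 + 3 * bt b J)) := by
      refine (h9.trans h3).trans (le_of_eq ?_)
      ring
    exact le_of_mul_le_mul_right h10 (by positivity)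
  have hb2c : (b2.card : ℝ) ≤ (G.card : ℝ) / 4 := by
    have h9 := hSqn d k ⌊x⌋₊ u y (by have := hD.hd; omega) hu2 hy1 (fun q hq huq => by
      have h10 : (w : ℝ) < q := lt_of_le_of_lt h6 huq
      have h11 : w < q := by exact_mod_cast h10
      constructor
      · intro h12
        have h13 := Int.natAbs_dvd_natAbs.2 h12
        rw [Int.natAbs_natCast] at h13
        have h14 := Nat.le_of_dvd (Int.natAbs_pos.2 hD.hk0) h13
        have := hD.hkw
        omega
      · intro h12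
        have h14 := Nat.le_of_dvd (by have := hD.hd; omega) h12
        have := hD.hdw
        omega)
    have h10 : b2 ⊆ (Icc 1 ⌊x⌋₊).filter (fun n => ∃ q ∈ prs u y, ((q : ℤ) ^ 2) ∣ fv d k n) := by
      intro p hp
      rw [Finset.mem_filter] at hp ⊢
      exact ⟨Finset.mem_Icc.2 (Fin_Gs hp.1).1, hp.2⟩
    have h11 : (b2.card : ℝ) ≤ (((Icc 1 ⌊x⌋₊).filter
        (fun n => ∃ q ∈ prs u y, ((q : ℤ) ^ 2) ∣ fv d k n)).card : ℝ) := by
      exact_mod_cast Finset.card_le_card h10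
    refine h11.trans (h9.trans ?_)
    have h12 : (⌊x⌋₊ : ℝ) ≤ x := Nat.floor_le hx0.le
    have h13 : 2 * (⌊x⌋₊ : ℝ) / u ≤ 2 * (x / u) := by
      rw [mul_div_assoc]
      gcongr
    have h14 : y = x / x ^ (1 / (d : ℝ)) := by
      rw [hy, Real.rpow_sub hx0, Real.rpow_one]
    have h15 : (d : ℝ) * (2 * (⌊x⌋₊ : ℝ) / u + y) ≤
        d * (2 * (c₁ / (12 * d) * (x / Real.log x ^ 2)) + c₁ / (12 * d) * (x / Real.log x ^ 2)) := by
      refine mul_le_mul_of_nonneg_left (add_le_add (h13.trans ?_) ?_) (Nat.cast_nonneg d)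
      · exact mul_le_mul_of_nonneg_left h4 (by norm_num)
      · rw [h14]
        exact h5
    refine h15.trans ?_
    have h16 : (d : ℝ) * (2 * (c₁ / (12 * d) * (x / Real.log x ^ 2)) +
        c₁ / (12 * d) * (x / Real.log x ^ 2)) = c₁ * (x / Real.log x ^ 2) / 4 := by
      field_simp
      ring
    rw [h16]
    linarith
  refine ⟨G.filter (fun p => Yp d k x p ≤ 104000 * (7 / 2 + 3 * bt b J) ∧
    ¬ ∃ q ∈ prs u y, ((q : ℤ) ^ 2) ∣ fv d k p), ?_, ?_⟩
  · have h9 : G ⊆ G.filter (fun p => Yp d k x p ≤ 104000 * (7 / 2 + 3 * bt b J) ∧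
        ¬ ∃ q ∈ prs u y, ((q : ℤ) ^ 2) ∣ fv d k p) ∪ (b1 ∪ b2) := by
      intro p hp
      by_cases h10 : Yp d k x p ≤ 104000 * (7 / 2 + 3 * bt b J)
      · by_cases h11 : ∃ q ∈ prs u y, ((q : ℤ) ^ 2) ∣ fv d k p
        · exact Finset.mem_union_right _ (Finset.mem_union_right _
            (Finset.mem_filter.2 ⟨hp, h11⟩))
        · exact Finset.mem_union_left _ (Finset.mem_filter.2 ⟨hp, h10, h11⟩)
      · exact Finset.mem_union_right _ (Finset.mem_union_left _
            (Finset.mem_filter.2 ⟨hp, not_le.1 h10⟩))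
    have h10 := (Finset.card_le_card h9).trans ((Finset.card_union_le _ _).trans
      (Nat.add_le_add_left (Finset.card_union_le _ _) _))
    have h11 : (G.card : ℝ) ≤ ((G.filter (fun p => Yp d k x p ≤ 104000 * (7 / 2 + 3 * bt b J) ∧
        ¬ ∃ q ∈ prs u y, ((q : ℤ) ^ 2) ∣ fv d k p)).card : ℝ) + (b1.card + b2.card) := by
      exact_mod_cast h10
    have h12 : c₁ / 4 * x / Real.log x ^ 2 = c₁ * (x / Real.log x ^ 2) / 4 := by ring
    rw [h12]
    linarith
  · intro p hp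
    obtain ⟨hpG, hpY, hpq⟩ := Finset.mem_filter.1 hp
    obtain ⟨⟨hp1, hpx⟩, hpp, hps⟩ := Fin_Gs hpG
    have hpx' : (p : ℝ) ≤ x := (Nat.le_floor_iff hx0.le).1 hpx
    refine ⟨hpp, hpx', ?_⟩
    -- positivity
    have hkp : k.natAbs < p := by
      have h9 : (k.natAbs : ℝ) ≤ Real.sqrt x := Real.le_sqrt_of_sq_le h8
      exact_mod_cast lt_of_le_of_lt h9 hps
    have hpd : p ≤ p ^ d := Nat.le_self_pow (by have := hD.hd; omega) p
    have hpos : 0 < fv d k p := by
      unfold fv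
      have h9 : (p : ℤ) ≤ (p : ℤ) ^ d := by exact_mod_cast hpd
      have h10 : (k.natAbs : ℤ) < p := by exact_mod_cast hkp
      omega
    have hn : ((fv d k p).toNat : ℤ) = fv d k p := Int.toNat_of_nonneg hpos.le
    have hn0 : 0 < (fv d k p).toNat := by omega
    refine ⟨(fv d k p).toNat, hn0, hn, ?_⟩
    obtain ⟨h9, h10⟩ := hOm d k w a hD b J x p (fv d k p).toNat hB (by linarith) h6 hpG hn0 hn hpq
    refine ⟨?_, fun q hq hqn => h10 q hq hqn⟩
    -- log n
    have h11 : (((fv d k p).toNat : ℕ) : ℝ) ≤ 2 * x ^ d := by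
      have h12 : (((fv d k p).toNat : ℕ) : ℝ) = (p : ℝ) ^ d + k := by
        have h13 : (((fv d k p).toNat : ℤ) : ℝ) = ((fv d k p : ℤ) : ℝ) := by rw [hn]
        rw [Int.cast_natCast] at h13
        rw [h13]
        unfold fv
        push_cast
        ring
      rw [h12]
      have h13 : (k : ℝ) ≤ p := by
        have h14 : k ≤ (p : ℤ) := by omega
        exact_mod_cast h14
      have h14 : (p : ℝ) ≤ (p : ℝ) ^ d := by exact_mod_cast hpd
      have h15 : (p : ℝ) ^ d ≤ x ^ d := pow_le_pow_left₀ (Nat.cast_nonneg p) hpx' d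
      linarith
    have h12 : Real.log (((fv d k p).toNat : ℕ) : ℝ) ≤ Real.log 2 + d * Real.log x := by
      have h13 : (0 : ℝ) < (((fv d k p).toNat : ℕ) : ℝ) := by exact_mod_cast hn0
      refine (Real.log_le_log h13 h11).trans (le_of_eq ?_)
      rw [Real.log_mul (by norm_num) (by positivity), Real.log_pow]
    have h13 : Real.log 2 ≤ 1 / 3 * Real.log x := by
      have h14 : Real.log 8 ≤ Real.log x := Real.log_le_log (by norm_num) h7
      have h15 : Real.log 8 = 3 * Real.log 2 := by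
        rw [show (8 : ℝ) = 2 ^ 3 by norm_num, Real.log_pow]
        norm_num
      linarith
    have h14 : Real.log (((fv d k p).toNat : ℕ) : ℝ) / ((1 - 1 / (d : ℝ)) * Real.log x) ≤ d + 2 := by
      have h15 : 0 < (1 - 1 / (d : ℝ)) * Real.log x := mul_pos (by linarith) hL
      rw [div_le_iff₀ h15]
      have h16 : ((d : ℝ) + 2) * ((1 - 1 / (d : ℝ)) * Real.log x) =
          (d + 1 - 2 * (1 / (d : ℝ))) * Real.log x := by
        field_simp
        ring
      rw [h16]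
      have h17 : (1 / 3 + (d : ℝ)) * Real.log x ≤ (d + 1 - 2 * (1 / (d : ℝ))) * Real.log x := by
        refine mul_le_mul_of_nonneg_right ?_ hL.le
        linarith
      linarith
    linarith

end Pool.Agent.MPdff.V
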