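import Pool.Agent.Lib.MP_dff12b_nt.SpecV

/-!
MP_dff12b_nt, part G, module Lwb: sum of the sieve lower bound over the family.
-/

namespace Pool.Agent.MPdff.V

open Finset Filter Topology Pool.Agent.Results.MP_00e23e_nt

private lemma Lwb_mem_prs {u v : ℝ} (hv : 0 ≤ v) {l : ℕ} :
    l ∈ prs u v ↔ (l.Prime ∧ u < l ∧ (l : ℝ) ≤ v) := by
  unfold prs
  rw [mem_filter, mem_Icc]
  constructor
  · rintro ⟨⟨_, h2⟩, h3, h4⟩
    exact ⟨h3, h4, (Nat.le_floor_iff hv).1 h2⟩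
  · rintro ⟨h1, h2, h3⟩
    exact ⟨⟨h1.one_lt.le, (Nat.le_floor_iff hv).2 h3⟩, h1, h2⟩

private lemma Lwb_be_anti {B : ℕ → ℝ} (hB : ∀ i, 2 ≤ B i) {i j : ℕ} (hij : i ≤ j) : be B j ≤ be B i := by
  have h1 : bs B i ≤ bs B j := by
    unfold bs
    apply Finset.sum_le_sum_of_subset_of_nonneg (Finset.range_mono hij)
    intro m _ _
    linarith [hB m]
  have h2 : Real.exp (-(bs B j)) ≤ Real.exp (-(bs B i)) := by
    apply Real.exp_le_exp.2
    linarith
  unfold be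
  linarith

private lemma Lwb_be_zero (B : ℕ → ℝ) : be B 0 = 1 / 400 := by
  unfold be bs
  simp

private lemma Lwb_be_pos (B : ℕ → ℝ) (i : ℕ) : 0 < be B i := by
  unfold be
  positivity

private lemma Lwb_fam_sub {J : ℕ} {W : ℕ → Finset ℕ} {t : ℕ → Prop} {S : Finset ℕ}
    (h : S ∈ fam J W t) : S ⊆ (range J).biUnion W := by
  simp only [fam, Finset.mem_filter, Finset.mem_powerset] at h
  exact h.1

/-- regrouping of a double sum by the union -/
private lemma Lwb_regroup (Fm : Finset (Finset ℕ)) (Tf : Finset ℕ → Finset (Finset ℕ))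
    (hT : ∀ S ∈ Fm, ∀ T ∈ Tf S, Disjoint S T) (f : Finset ℕ → ℝ) (hf : ∀ U, 0 ≤ f U) :
    ∑ S ∈ Fm, ∑ T ∈ Tf S, f (S ∪ T) ≤
      ∑ U ∈ (Fm.sigma Tf).image (fun P => P.1 ∪ P.2), (2 : ℝ) ^ U.card * f U := by
  classical
  rw [Finset.sum_sigma' Fm Tf (fun S T => f (S ∪ T))]
  rw [← Finset.sum_fiberwise_of_maps_to (s := Fm.sigma Tf)
    (t := (Fm.sigma Tf).image (fun P => P.1 ∪ P.2)) (g := fun P => P.1 ∪ P.2)
    (fun P hP => Finset.mem_image_of_mem _ hP)]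
  apply Finset.sum_le_sum
  intro U _
  have h1 : ∑ P ∈ (Fm.sigma Tf).filter (fun P => P.1 ∪ P.2 = U), f (P.1 ∪ P.2) =
      (((Fm.sigma Tf).filter (fun P => P.1 ∪ P.2 = U)).card : ℝ) * f U := by
    rw [Finset.sum_congr rfl (fun P hP => by rw [(Finset.mem_filter.1 hP).2])]
    rw [Finset.sum_const, nsmul_eq_mul]
  rw [h1]
  apply mul_le_mul_of_nonneg_right _ (hf U)
  have h2 : ((Fm.sigma Tf).filter (fun P => P.1 ∪ P.2 = U)).card ≤ U.powerset.card := by
    apply Finset.card_le_card_of_injOn (fun P => P.1)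
    · intro P hP
      have hP' := Finset.mem_filter.1 (Finset.mem_coe.1 hP)
      rw [Finset.mem_coe, Finset.mem_powerset, ← hP'.2]
      exact Finset.subset_union_left
    · intro P hP P' hP' h
      have hP1 := Finset.mem_filter.1 (Finset.mem_coe.1 hP)
      have hP2 := Finset.mem_filter.1 (Finset.mem_coe.1 hP')
      obtain ⟨S, T⟩ := P
      obtain ⟨S', T'⟩ := P'
      have hS : S = S' := h
      subst hS
      have hd1 := hT S (Finset.mem_sigma.1 hP1.1).1 T (Finset.mem_sigma.1 hP1.1).2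
      have hd2 := hT S (Finset.mem_sigma.1 hP2.1).1 T' (Finset.mem_sigma.1 hP2.1).2
      have h3 : S ∪ T = S ∪ T' := by
        have e1 : S ∪ T = U := hP1.2
        have e2 : S ∪ T' = U := hP2.2
        rw [e1, e2]
      have h4 : T = T' := by
        have e1 : T = (S ∪ T) \ S := by
          rw [Finset.union_sdiff_left]
          exact (Finset.sdiff_eq_self_of_disjoint hd1.symm).symm
        have e2 : T' = (S ∪ T') \ S := by
          rw [Finset.union_sdiff_left]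
          exact (Finset.sdiff_eq_self_of_disjoint hd2.symm).symm
        rw [e1, e2, h3]
      rw [h4]
  rw [Finset.card_powerset] at h2
  exact_mod_cast h2

private lemma Lwb_count (d : ℕ) (k : ℤ) (w a : ℕ) (B : ℕ → ℝ) (J : ℕ) (x : ℝ) (_hx : 1 ≤ x) :
    ∑ S ∈ fam J (wn B x) (fun _ => True),
      (((Icc 1 ⌊x⌋₊).filter (fun p => p.Prime ∧ p ≡ a [MOD primorial w] ∧
        Dv d k w (x ^ ((1 : ℝ) / 400)) p = S)).card : ℝ) ≤
    ((Gs d k w a B J x).card : ℝ) + Real.sqrt x := by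
  classical
  set Fm := fam J (wn B x) (fun _ => True) with hFm
  have h1 : ∑ S ∈ Fm, ((Icc 1 ⌊x⌋₊).filter (fun p => p.Prime ∧ p ≡ a [MOD primorial w] ∧
        Dv d k w (x ^ ((1 : ℝ) / 400)) p = S)).card ≤
      (Gs d k w a B J x ∪ Icc 1 ⌊Real.sqrt x⌋₊).card := by
    rw [← Finset.card_biUnion]
    · apply Finset.card_le_card
      intro p hp
      rw [Finset.mem_biUnion] at hp
      obtain ⟨S, hS, hp⟩ := hp
      rw [Finset.mem_filter] at hp
      obtain ⟨hpI, hpp, hpa, hpS⟩ := hp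
      by_cases hps : Real.sqrt x < p
      · apply Finset.mem_union_left
        unfold Gs
        apply Finset.mem_filter.2
        refine ⟨hpI, hpp, hps, hpa, ?_⟩
        rw [hpS]
        exact hS
      · apply Finset.mem_union_right
        rw [Finset.mem_Icc]
        exact ⟨(Finset.mem_Icc.1 hpI).1, (Nat.le_floor_iff (Real.sqrt_nonneg x)).2 (not_lt.1 hps)⟩
    · intro S _ S' _ hne
      rw [Function.onFun, Finset.disjoint_left]
      intro p hp hp'
      exact hne ((Finset.mem_filter.1 hp).2.2.2.symm.trans (Finset.mem_filter.1 hp').2.2.2)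
  have h2 := h1.trans (Finset.card_union_le _ _)
  rw [Nat.card_Icc] at h2
  have h3 : ((⌊Real.sqrt x⌋₊ + 1 - 1 : ℕ) : ℝ) ≤ Real.sqrt x := by
    rw [Nat.add_sub_cancel]
    exact Nat.floor_le (Real.sqrt_nonneg x)
  have h4 : ((∑ S ∈ Fm, ((Icc 1 ⌊x⌋₊).filter (fun p => p.Prime ∧ p ≡ a [MOD primorial w] ∧
        Dv d k w (x ^ ((1 : ℝ) / 400)) p = S)).card : ℕ) : ℝ) ≤
      (((Gs d k w a B J x).card + (⌊Real.sqrt x⌋₊ + 1 - 1) : ℕ) : ℝ) := by
    exact_mod_cast h2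
  push_cast [-Nat.cast_sub] at h4
  have h5 : (((Gs d k w a B J x).card + (⌊Real.sqrt x⌋₊ + 1 - 1) : ℕ) : ℝ) =
      ((Gs d k w a B J x).card : ℝ) + ((⌊Real.sqrt x⌋₊ + 1 - 1 : ℕ) : ℝ) := by
    rw [Nat.cast_add]
  have h6 : ∑ S ∈ Fm, (((Icc 1 ⌊x⌋₊).filter (fun p => p.Prime ∧ p ≡ a [MOD primorial w] ∧
        Dv d k w (x ^ ((1 : ℝ) / 400)) p = S)).card : ℝ) ≤
      (((Gs d k w a B J x).card + (⌊Real.sqrt x⌋₊ + 1 - 1) : ℕ) : ℝ) := by
    have := (Nat.cast_le (α := ℝ)).2 h2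
    rw [Nat.cast_sum] at this
    exact this
  rw [h5] at h6
  linarith

theorem tLwb : S_Wt → S_Fam → S_Wdj → S_Fpr → S_Lwa → S_Lwb := by
  intro hWt hFam hWdj hFpr hLwa d k w a hD B J hB
  obtain ⟨x0, hx0⟩ := hWt (2 * d) (primorial w) (primorial_pos w)
  have hbeJ : 0 < be B J := Lwb_be_pos B J
  have ev1 : ∀ᶠ x : ℝ in atTop, (w : ℝ) ≤ x ^ be B J :=
    (tendsto_rpow_atTop hbeJ).eventually_ge_atTop _
  have ev2 : ∀ᶠ x : ℝ in atTop, (2 : ℝ) ≤ x ^ ((1 : ℝ) / 400) :=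
    (tendsto_rpow_atTop (by norm_num)).eventually_ge_atTop _
  filter_upwards [ev1, ev2, eventually_ge_atTop x0, eventually_ge_atTop 2] with x hw h2 hxx0 hx2
  classical
  have hx1 : 1 ≤ x := by linarith
  have hxpos : 0 < x := by linarith
  set Fm := fam J (wn B x) (fun _ => True) with hFm
  set Q := prs w (x ^ ((1 : ℝ) / 400)) with hQ
  set b0 := primorial w with hb0
  have hy0 : (0 : ℝ) ≤ x ^ ((1 : ℝ) / 400) := by positivity
  have hSQ : ∀ S ∈ Fm, S ⊆ Q := by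
    intro S hS l hl
    have h3 := Lwb_fam_sub hS hl
    rw [mem_biUnion] at h3
    obtain ⟨i, hi, hli⟩ := h3
    unfold wn at hli
    rw [Lwb_mem_prs (by positivity)] at hli
    rw [hQ, Lwb_mem_prs hy0]
    have hi' : i + 1 ≤ J := by
      have := mem_range.1 hi
      omega
    have h4 : x ^ be B J ≤ x ^ be B (i + 1) :=
      Real.rpow_le_rpow_of_exponent_le hx1 (Lwb_be_anti hB hi')
    have h5 : x ^ be B i ≤ x ^ ((1 : ℝ) / 400) := by
      apply Real.rpow_le_rpow_of_exponent_le hx1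
      rw [← Lwb_be_zero B]
      exact Lwb_be_anti hB (Nat.zero_le i)
    exact ⟨hli.1, by linarith [hli.2.1], by linarith [hli.2.2]⟩
  -- prime sets
  have hprQ : ∀ l ∈ Q, l.Prime := fun l hl => ((Lwb_mem_prs hy0).1 hl).1
  set Tf : Finset ℕ → Finset (Finset ℕ) := fun S =>
    (Q \ S).powerset.filter (fun T => ∏ l ∈ T, l ≤ ⌊x ^ ((1 : ℝ) / 400)⌋₊ ^ 46) with hTf
  set f : Finset ℕ → ℝ := fun U => (∏ l ∈ U, (rt d k l : ℝ)) * maxErr x (b0 * ∏ l ∈ U, l) with hf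
  have hf0 : ∀ U, 0 ≤ f U := by
    intro U
    apply mul_nonneg
    · exact Finset.prod_nonneg (fun l _ => Nat.cast_nonneg _)
    · exact Pool.Agent.Lib.EH.maxErr_nonneg x _
  have hmain := Finset.sum_le_sum (fun S hS => hLwa d k w a hD x S h2 (hSQ S hS))
  have hcount := Lwb_count d k w a B J x hx1
  rw [Finset.sum_sub_distrib] at hmain
  have hM : ∑ S ∈ Fm, li x / ((primorial w).totient : ℝ) *
        (∏ l ∈ S, (rt d k l : ℝ) / ((l : ℝ) - 1)) * (1 / 2 * Vx d k w (1 / 400) x) =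
      li x / ((primorial w).totient : ℝ) * (1 / 2 * Vx d k w (1 / 400) x) *
        (∏ i ∈ range J, ∑ l ∈ wn B x i, (rt d k l : ℝ) / ((l : ℝ) - 1)) := by
    have h3 := hFam J (wn B x) (fun _ => True) (fun l => (rt d k l : ℝ) / ((l : ℝ) - 1))
      (fun i _ j _ hij => hWdj B x i j hB hx1 hij)
    simp only [if_true] at h3
    rw [← h3, Finset.mul_sum]
    apply Finset.sum_congr rfl
    intro S _
    ring
  -- error terms
  have hdisj : ∀ S ∈ Fm, ∀ T ∈ Tf S, Disjoint S T := by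
    intro S _ T hT
    have h3 : T ⊆ Q \ S := Finset.mem_powerset.1 (Finset.mem_filter.1 hT).1
    exact Finset.disjoint_of_subset_right h3 Finset.disjoint_sdiff
  have hE := Lwb_regroup Fm Tf hdisj f hf0
  set F := (Fm.sigma Tf).image (fun P => P.1 ∪ P.2) with hF
  have hFU : ∀ U ∈ F, (∀ l ∈ U, l.Prime) ∧ ((∏ l ∈ U, l : ℕ) : ℝ) ≤ x ^ ((1 : ℝ) / 4) := by
    intro U hU
    rw [hF, Finset.mem_image] at hU
    obtain ⟨⟨S, T⟩, hP, rfl⟩ := hU
    obtain ⟨hS, hT⟩ := Finset.mem_sigma.1 hP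
    have hS' : S ∈ Fm := hS
    have hT' : T ∈ Tf S := hT
    have hTQ : T ⊆ Q := (Finset.mem_powerset.1 (Finset.mem_filter.1 hT').1).trans
      Finset.sdiff_subset
    have hSp := hSQ S hS'
    refine ⟨?_, ?_⟩
    · intro l hl
      rcases Finset.mem_union.1 hl with h | h
      · exact hprQ l (hSp h)
      · exact hprQ l (hTQ h)
    · have h3 : ∏ l ∈ S ∪ T, l = (∏ l ∈ S, l) * ∏ l ∈ T, l :=
        Finset.prod_union (hdisj S hS' T hT')
      show ((∏ l ∈ S ∪ T, l : ℕ) : ℝ) ≤ _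
      rw [h3, Nat.cast_mul]
      have h4 := hFpr B x (1 / 400) J (fun _ => True) hB hx1 (by norm_num)
      have h5 : wc B x (1 / 400) = wn B x := funext h4.2.2
      have h6 := h4.1 S (by rw [h5]; exact hS')
      have h7 : ((∏ l ∈ T, l : ℕ) : ℝ) ≤ x ^ ((46 : ℝ) / 400) := by
        have h8 : ∏ l ∈ T, l ≤ ⌊x ^ ((1 : ℝ) / 400)⌋₊ ^ 46 := (Finset.mem_filter.1 hT').2
        calc ((∏ l ∈ T, l : ℕ) : ℝ) ≤ ((⌊x ^ ((1 : ℝ) / 400)⌋₊ ^ 46 : ℕ) : ℝ) := by
              exact_mod_cast h8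
          _ = (⌊x ^ ((1 : ℝ) / 400)⌋₊ : ℝ) ^ 46 := by push_cast; rfl
          _ ≤ (x ^ ((1 : ℝ) / 400)) ^ 46 := by
              apply pow_le_pow_left₀ (Nat.cast_nonneg _)
              exact Nat.floor_le hy0
          _ = x ^ ((46 : ℝ) / 400) := by
              rw [← Real.rpow_natCast, ← Real.rpow_mul hxpos.le]
              norm_num
      calc ((∏ l ∈ S, l : ℕ) : ℝ) * ((∏ l ∈ T, l : ℕ) : ℝ)
          ≤ x ^ (3 * ((1 : ℝ) / 400)) * x ^ ((46 : ℝ) / 400) :=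
            mul_le_mul h6.2 h7 (Nat.cast_nonneg _) (by positivity)
        _ = x ^ (3 * ((1 : ℝ) / 400) + (46 : ℝ) / 400) := by
            rw [Real.rpow_add hxpos]
        _ ≤ x ^ ((1 : ℝ) / 4) := by
            apply Real.rpow_le_rpow_of_exponent_le hx1
            norm_num
  have hE2 : ∑ U ∈ F, (2 : ℝ) ^ U.card * f U ≤
      ∑ U ∈ F, ((2 * d : ℕ) : ℝ) ^ U.card * maxErr x (b0 * ∏ l ∈ U, l) := by
    apply Finset.sum_le_sum
    intro U hU
    have h3 : ∏ l ∈ U, (rt d k l : ℝ) ≤ (d : ℝ) ^ U.card := by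
      rw [← Finset.prod_const]
      apply Finset.prod_le_prod (fun l _ => Nat.cast_nonneg _)
      intro l hl
      exact_mod_cast hD.rd l ((hFU U hU).1 l hl)
    have h4 : 0 ≤ maxErr x (b0 * ∏ l ∈ U, l) := Pool.Agent.Lib.EH.maxErr_nonneg x _
    simp only [hf]
    push_cast
    rw [mul_pow, ← mul_assoc]
    apply mul_le_mul_of_nonneg_right _ h4
    exact mul_le_mul_of_nonneg_left h3 (by positivity)
  have hE3 := hx0 x hxx0 F hFU
  have hfin : li x / ((primorial w).totient : ℝ) * (1 / 2 * Vx d k w (1 / 400) x) *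
        (∏ i ∈ range J, ∑ l ∈ wn B x i, (rt d k l : ℝ) / ((l : ℝ) - 1)) -
      ∑ S ∈ Fm, ∑ T ∈ Tf S, f (S ∪ T) ≤ ((Gs d k w a B J x).card : ℝ) + Real.sqrt x := by
    rw [← hM]
    exact hmain.trans hcount
  linarith

end Pool.Agent.MPdff.V
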