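import Pool.Agent.Lib.MP_dff12b_nt.SpecV

/-! MP_dff12b_nt, part G, module Lwc: the lower bound for the number of elements of `Gs`. -/

namespace Pool.Agent.MPdff.V

open Finset Filter Topology Pool.Agent.Results.MP_00e23e_nt

private theorem lwc_be_pos (B : ℕ → ℝ) (i : ℕ) : 0 < be B i := by
  unfold be
  positivity

private theorem lwc_be_ratio (B : ℕ → ℝ) (i : ℕ) : Real.log (be B i / be B (i + 1)) = B i := by
  unfold be
  have h1 : Real.exp (-(bs B i)) / 400 / (Real.exp (-(bs B (i + 1))) / 400) =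
      Real.exp (B i) := by
    rw [div_div_div_cancel_right₀ (by norm_num : (400 : ℝ) ≠ 0), ← Real.exp_sub]
    refine congrArg Real.exp ?_
    unfold bs
    rw [Finset.sum_range_succ]
    ring
  rw [h1, Real.log_exp]

private theorem lwc_be_lt (B : ℕ → ℝ) (hB : ∀ i, 2 ≤ B i) (i : ℕ) : be B (i + 1) < be B i := by
  unfold be
  refine div_lt_div_of_pos_right ?_ (by norm_num)
  rw [Real.exp_lt_exp]
  unfold bs
  rw [Finset.sum_range_succ]
  linarith [hB i]

private theorem lwc_li (x : ℝ) (hx : 8 ≤ x) : 3 / 4 * (x / Real.log x) ≤ li x := by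
  have hl : 0 < Real.log x := Real.log_pos (by linarith)
  have h1 : (x - 2) * (Real.log x)⁻¹ ≤ li x := by
    have h2 : ∫ _ in (2 : ℝ)..x, (Real.log x)⁻¹ = (x - 2) * (Real.log x)⁻¹ := by
      rw [intervalIntegral.integral_const, smul_eq_mul]
    rw [← h2]
    unfold li
    refine intervalIntegral.integral_mono_on (by linarith) intervalIntegrable_const ?_ ?_
    · refine ContinuousOn.intervalIntegrable ?_
      rw [Set.uIcc_of_le (by linarith : (2 : ℝ) ≤ x)]
      refine ContinuousOn.inv₀ ?_ ?_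
      · refine Real.continuousOn_log.mono ?_
        intro t ht
        have : (2 : ℝ) ≤ t := ht.1
        simp only [Set.mem_compl_iff, Set.mem_singleton_iff]
        linarith
      · intro t ht
        have : (2 : ℝ) ≤ t := ht.1
        exact (Real.log_pos (by linarith)).ne'
    · intro t ht
      have h3 : (2 : ℝ) ≤ t := ht.1
      have h4 : t ≤ x := ht.2
      exact inv_anti₀ (Real.log_pos (by linarith)) (Real.log_le_log (by linarith) h4)
  refine le_trans ?_ h1
  rw [← div_eq_mul_inv, ← mul_div_assoc]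
  exact div_le_div_of_nonneg_right (by linarith) hl.le

/-- the error terms -/
private theorem lwc_small (c : ℝ) (hc : 0 < c) :
    ∀ᶠ x : ℝ in atTop, x / (Real.log x) ^ 4 + Real.sqrt x ≤ c * (x / (Real.log x) ^ 2) := by
  have h1 : ∀ᶠ x : ℝ in atTop, 2 / c ≤ Real.log x :=
    Real.tendsto_log_atTop.eventually_ge_atTop _
  have h2 : ∀ᶠ x : ℝ in atTop, 1 ≤ Real.log x := Real.tendsto_log_atTop.eventually_ge_atTop _
  have h3 : ∀ᶠ x : ℝ in atTop, ‖Real.log x ^ (2 : ℝ)‖ ≤ c / 2 * ‖x ^ ((1 : ℝ) / 2)‖ :=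
    (isLittleO_log_rpow_rpow_atTop 2 (by norm_num : (0 : ℝ) < 1 / 2)).def (by positivity)
  filter_upwards [h1, h2, h3, eventually_ge_atTop (1 : ℝ)] with x h1 h2 h3 h4
  have hl : 0 < Real.log x := by linarith
  have h5 : x / (Real.log x) ^ 4 ≤ c / 2 * (x / (Real.log x) ^ 2) := by
    have h6 : 2 ≤ c * (Real.log x) ^ 2 := by
      have h7 : 2 ≤ c * Real.log x := by
        rw [div_le_iff₀ hc] at h1
        linarith
      nlinarith
    rw [← mul_div_assoc, div_le_div_iff₀ (by positivity) (by positivity)]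
    have h8 : 0 ≤ x * (Real.log x) ^ 2 := by positivity
    nlinarith
  have h9 : Real.sqrt x ≤ c / 2 * (x / (Real.log x) ^ 2) := by
    rw [Real.norm_of_nonneg (by positivity), Real.norm_of_nonneg (by positivity),
      Real.rpow_two, ← Real.sqrt_eq_rpow] at h3
    rw [← mul_div_assoc, le_div_iff₀ (by positivity)]
    have h10 : Real.sqrt x * Real.sqrt x = x := Real.mul_self_sqrt (by linarith)
    have h11 : 0 ≤ Real.sqrt x := Real.sqrt_nonneg x
    nlinarith
  linarith

theorem tLwc : S_Wh → S_Vlo → S_Lwb → S_Lwc := by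
  intro hWh hVlo hLwb d k w a hD B J hB
  obtain ⟨c, hc, hV⟩ := hVlo d k w a hD (1 / 400) (by norm_num) (by norm_num)
  have hBJ : 1 ≤ bp B J := by
    unfold bp
    calc (1 : ℝ) = ∏ i ∈ range J, (1 : ℝ) := (Finset.prod_const_one).symm
      _ ≤ ∏ i ∈ range J, B i :=
          Finset.prod_le_prod (fun _ _ => zero_le_one) (fun i _ => by linarith [hB i])
  have hW : Tendsto (fun x : ℝ => ∏ i ∈ range J, ∑ l ∈ wn B x i, (rt d k l : ℝ) / ((l : ℝ) - 1))
      atTop (𝓝 (bp B J)) := by
    unfold bp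
    refine tendsto_finsetProd _ (fun i _ => ?_)
    have h1 := (hWh d k w a hD (be B (i + 1)) (be B i) (lwc_be_pos B (i + 1)) (lwc_be_lt B hB i)).1
    rw [lwc_be_ratio] at h1
    exact h1
  have hW2 : ∀ᶠ x : ℝ in atTop, 1 / 2 * bp B J ≤
      ∏ i ∈ range J, ∑ l ∈ wn B x i, (rt d k l : ℝ) / ((l : ℝ) - 1) := by
    refine (hW.eventually_const_lt (by linarith : 1 / 2 * bp B J < bp B J)).mono (fun x hx => hx.le)
  have hph : (0 : ℝ) < ((primorial w).totient : ℝ) := by
    exact_mod_cast Nat.totient_pos.2 (primorial_pos w)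
  have hS := lwc_small (1 / 16 * (c / ((primorial w).totient : ℝ))) (by positivity)
  filter_upwards [hW2, hV, hS, hLwb d k w a hD B J hB, eventually_ge_atTop (8 : ℝ)]
    with x h1 h2 h3 h4 h5
  have hl : 0 < Real.log x := Real.log_pos (by linarith)
  have hV0 : 0 < Vx d k w (1 / 400) x := lt_of_lt_of_le (by positivity) h2
  have hX : 3 / 4 * Xx w x ≤ li x / ((primorial w).totient : ℝ) := by
    have h6 := lwc_li x h5
    have h7 : 3 / 4 * Xx w x = 3 / 4 * (x / Real.log x) / ((primorial w).totient : ℝ) := by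
      unfold Xx
      field_simp
    rw [h7]
    exact div_le_div_of_nonneg_right h6 hph.le
  have hX0 : 0 < Xx w x := by
    unfold Xx
    positivity
  -- main term
  have h8 : 3 / 16 * (Xx w x * bp B J * Vx d k w (1 / 400) x) ≤
      li x / ((primorial w).totient : ℝ) * (1 / 2 * Vx d k w (1 / 400) x) *
        (∏ i ∈ range J, ∑ l ∈ wn B x i, (rt d k l : ℝ) / ((l : ℝ) - 1)) := by
    have h9 : (3 / 4 * Xx w x) * (1 / 2 * Vx d k w (1 / 400) x) ≤
        li x / ((primorial w).totient : ℝ) * (1 / 2 * Vx d k w (1 / 400) x) :=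
      mul_le_mul_of_nonneg_right hX (by positivity)
    have h10 : (3 / 4 * Xx w x) * (1 / 2 * Vx d k w (1 / 400) x) * (1 / 2 * bp B J) ≤
        li x / ((primorial w).totient : ℝ) * (1 / 2 * Vx d k w (1 / 400) x) *
        (∏ i ∈ range J, ∑ l ∈ wn B x i, (rt d k l : ℝ) / ((l : ℝ) - 1)) :=
      mul_le_mul h9 h1 (by positivity) (le_trans (by positivity) h9)
    refine le_trans (le_of_eq ?_) h10
    ring
  -- error term
  have h11 : x / (Real.log x) ^ 4 + Real.sqrt x ≤
      1 / 16 * (Xx w x * bp B J * Vx d k w (1 / 400) x) := by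
    refine h3.trans ?_
    have h12 : c / ((primorial w).totient : ℝ) * (x / (Real.log x) ^ 2) ≤
        Xx w x * Vx d k w (1 / 400) x := by
      have h13 : c / ((primorial w).totient : ℝ) * (x / (Real.log x) ^ 2) =
          Xx w x * (c / Real.log x) := by
        unfold Xx
        field_simp
      rw [h13]
      exact mul_le_mul_of_nonneg_left h2 hX0.le
    have h14 : Xx w x * Vx d k w (1 / 400) x ≤ Xx w x * bp B J * Vx d k w (1 / 400) x := by
      have h15 : 0 ≤ Xx w x * Vx d k w (1 / 400) x := by positivity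
      nlinarith
    rw [mul_assoc]
    exact mul_le_mul_of_nonneg_left (h12.trans h14) (by norm_num)
  have hs : 0 ≤ Real.sqrt x := Real.sqrt_nonneg x
  linarith

end Pool.Agent.MPdff.V
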