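import Pool.Agent.Lib.MP_dff12b_nt.SpecV

/-!
MP_dff12b_nt, part V, module Opt: choice of the growing windows.
-/

namespace Pool.Agent.MPdff.V

open Finset Filter Topology

/-- the window lengths: 64, 2^4, 2^7, 2^13, 2^25, .. -/
private noncomputable def bw (i : ℕ) : ℝ := if i = 0 then 64 else 2 ^ (3 * 2 ^ (i - 1) + 1)

private theorem bw_zero : bw 0 = 64 := by
  unfold bw
  rw [if_pos rfl]

private theorem bw_succ (i : ℕ) : bw (i + 1) = 2 ^ (3 * 2 ^ i + 1) := by
  unfold bw
  rw [if_neg (Nat.succ_ne_zero i), Nat.add_sub_cancel]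

private theorem bw_ge (i : ℕ) : 2 ≤ bw i := by
  cases i with
  | zero => rw [bw_zero]; norm_num
  | succ i =>
    rw [bw_succ]
    calc (2 : ℝ) = 2 ^ 1 := (pow_one 2).symm
      _ ≤ 2 ^ (3 * 2 ^ i + 1) := pow_le_pow_right₀ (by norm_num) (by omega)

private theorem bp_bw (i : ℕ) : bp bw (i + 1) = 2 ^ (3 * 2 ^ i + i + 3) := by
  induction i with
  | zero =>
    unfold bp
    rw [Finset.prod_range_one, bw_zero]
    norm_num
  | succ i ih =>
    have h1 : bp bw (i + 1 + 1) = bp bw (i + 1) * bw (i + 1) := by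
      unfold bp
      rw [Finset.prod_range_succ]
    rw [h1, ih, bw_succ, ← pow_add]
    congr 1
    rw [pow_succ]
    ring

private theorem bt_bw (J : ℕ) : bt bw (J + 1) ≤ 65 - (1 / 2) ^ (J + 1) := by
  induction J with
  | zero =>
    unfold bt bp
    rw [Finset.sum_range_one, Finset.prod_range_zero, bw_zero]
    norm_num
  | succ J ih =>
    have h1 : bt bw (J + 1 + 1) = bt bw (J + 1) + bw (J + 1) / bp bw (J + 1) := by
      unfold bt
      rw [Finset.sum_range_succ]
    have h2 : bw (J + 1) / bp bw (J + 1) = (1 / 2) ^ (J + 2) := by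
      rw [bw_succ, bp_bw]
      have h3 : 3 * 2 ^ J + J + 3 = (3 * 2 ^ J + 1) + (J + 2) := by ring
      rw [h3, pow_add (2 : ℝ) (3 * 2 ^ J + 1) (J + 2), one_div, inv_pow]
      field_simp
    rw [h1, h2]
    have h4 : ((1 : ℝ) / 2) ^ (J + 1) = 2 * (1 / 2) ^ (J + 2) := by
      rw [pow_succ (1 / 2 : ℝ) (J + 1)]
      ring
    have h5 : J + 1 + 1 = J + 2 := rfl
    rw [h5]
    linarith

theorem tOpt : S_Opt := by
  intro d hd
  have hd3 : (3 : ℝ) ≤ d := by exact_mod_cast hd
  have hlog3 : 1 < Real.log 3 := by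
    rw [Real.lt_log_iff_exp_lt (by norm_num)]
    have := Real.exp_one_lt_d9
    linarith
  have hld : 1 < Real.log d := lt_of_lt_of_le hlog3 (Real.log_le_log (by norm_num) hd3)
  set L : ℝ := Real.log (Real.log d) with hL
  have hL0 : 0 < L := Real.log_pos hld
  have hlog2 : (0.6931 : ℝ) < Real.log 2 := by
    have := Real.log_two_gt_d9
    linarith
  have hlog2' : 0 < Real.log 2 := by linarith
  -- existence of J
  have hex : ∃ i : ℕ, Real.log d ≤ bp bw (i + 1) := by
    obtain ⟨n, hn⟩ := pow_unbounded_of_one_lt (Real.log d) (by norm_num : (1 : ℝ) < 2)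
    refine ⟨n, hn.le.trans ?_⟩
    rw [bp_bw]
    exact pow_le_pow_right₀ (by norm_num) (by omega)
  classical
  have h1 := Nat.find_spec hex
  refine ⟨bw, Nat.find hex + 1, bw_ge, h1, ?_, ?_⟩
  · have h2 := bt_bw (Nat.find hex)
    have h3 : (0 : ℝ) ≤ (1 / 2) ^ (Nat.find hex + 1) := by positivity
    linarith
  · push_cast
    have hM0 : 0 ≤ Real.log (2 + L) := Real.log_nonneg (by linarith)
    rcases Nat.eq_zero_or_pos (Nat.find hex) with h0 | h0
    · rw [h0]
      have : 0 ≤ Real.log (2 + L) / Real.log 2 := div_nonneg hM0 hlog2'.le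
      push_cast
      linarith
    · obtain ⟨m, hm⟩ : ∃ m, Nat.find hex = m + 1 := ⟨Nat.find hex - 1, by omega⟩
      have h2 := Nat.find_min hex (m := m) (by omega)
      rw [not_le, bp_bw] at h2
      rw [hm]
      have h3 : ((3 * 2 ^ m + m + 3 : ℕ) : ℝ) * Real.log 2 < L := by
        rw [← Real.log_pow, hL]
        exact Real.log_lt_log (by positivity) h2
      have h4 : (2 : ℝ) ^ (m + 1) ≤ 2 + L := by
        push_cast at h3
        have h5 : (0 : ℝ) ≤ m := Nat.cast_nonneg m
        have h6 : (1 : ℝ) ≤ 2 ^ m := one_le_pow₀ (by norm_num)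
        rw [pow_succ]
        have h7 : 0.6931 * (3 * 2 ^ m + (m : ℝ) + 3) ≤ (3 * 2 ^ m + (m : ℝ) + 3) * Real.log 2 := by
          nlinarith
        nlinarith
      have h5 : ((m + 1 : ℕ) : ℝ) * Real.log 2 ≤ Real.log (2 + L) := by
        rw [← Real.log_pow]
        exact Real.log_le_log (by positivity) h4
      have h6 : ((m + 1 : ℕ) : ℝ) ≤ Real.log (2 + L) / Real.log 2 := by
        rw [le_div_iff₀ hlog2']
        exact h5
      linarith

end Pool.Agent.MPdff.V
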