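import Pool.Agent.Lib.MP_dff12b_nt.SpecV

/-!
MP_dff12b_nt, part V, module Sm: the sum of the window factors over r (growing windows).
-/

namespace Pool.Agent.MPdff.V

open Finset Filter Topology Pool.Agent.Results.MP_00e23e_nt

/-- the condition `be b i ≤ er r` in logarithms -/
private theorem sm_be_iff (b : ℕ → ℝ) (r i : ℕ) :
    be b i ≤ er r ↔ (r : ℝ) * Real.log 2 ≤ bs b i := by
  have h2 : (0 : ℝ) < (2 : ℝ) ^ r := by positivity
  unfold be er
  have e2 : Real.exp (-(bs b i)) / 400 ≤ 1 / (400 * 2 ^ r) ↔ (2 : ℝ) ^ r ≤ Real.exp (bs b i) := by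
    rw [Real.exp_neg]
    have hx : (0 : ℝ) < Real.exp (bs b i) := Real.exp_pos _
    constructor
    · intro h
      have h' : (Real.exp (bs b i))⁻¹ * 2 ^ r ≤ 1 := by
        have := mul_le_mul_of_nonneg_right h (by positivity : (0 : ℝ) ≤ 400 * 2 ^ r)
        rw [one_div, inv_mul_cancel₀ (by positivity)] at this
        calc (Real.exp (bs b i))⁻¹ * 2 ^ r = (Real.exp (bs b i))⁻¹ / 400 * (400 * 2 ^ r) := by ring
          _ ≤ 1 := this
      have h3 := mul_le_mul_of_nonneg_left h' hx.le
      rw [← mul_assoc, mul_inv_cancel₀ hx.ne', one_mul, mul_one] at h3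
      exact h3
    · intro h
      have h3 : (Real.exp (bs b i))⁻¹ ≤ ((2 : ℝ) ^ r)⁻¹ := inv_anti₀ h2 h
      calc (Real.exp (bs b i))⁻¹ / 400 ≤ ((2 : ℝ) ^ r)⁻¹ / 400 := by
            apply div_le_div_of_nonneg_right h3 (by norm_num)
        _ = 1 / (400 * 2 ^ r) := by
            rw [one_div, mul_inv]
            ring
  rw [e2]
  rw [← Real.log_le_log_iff h2 (Real.exp_pos _), Real.log_pow, Real.log_exp]

private theorem sm_bs_mono {b : ℕ → ℝ} (hb : ∀ i, 2 ≤ b i) {i j : ℕ} (hij : i ≤ j) :
    bs b i ≤ bs b j := by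
  unfold bs
  apply Finset.sum_le_sum_of_subset_of_nonneg (Finset.range_mono hij)
  intro m _ _
  linarith [hb m]

private theorem sm_bs_succ (b : ℕ → ℝ) (i : ℕ) : bs b (i + 1) = bs b i + b i := by
  unfold bs
  rw [Finset.sum_range_succ]

private theorem sm_bs_nonneg {b : ℕ → ℝ} (hb : ∀ i, 2 ≤ b i) (i : ℕ) : 0 ≤ bs b i := by
  unfold bs
  exact Finset.sum_nonneg (fun m _ => by linarith [hb m])

private theorem sm_bp_pos {b : ℕ → ℝ} (hb : ∀ i, 2 ≤ b i) (i : ℕ) : 0 < bp b i := by
  unfold bp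
  exact Finset.prod_pos fun m _ => by linarith [hb m]

private theorem sm_bp_succ (b : ℕ → ℝ) (i : ℕ) : bp b (i + 1) = bp b i * b i := by
  unfold bp
  rw [Finset.prod_range_succ]

private theorem sm_one {b : ℕ → ℝ} (hb : ∀ i, 2 ≤ b i) {J r : ℕ}
    (h : bs b J < (r : ℝ) * Real.log 2) : ∏ i ∈ range J, El b r i = 1 := by
  apply Finset.prod_eq_one
  intro i hi
  have hiJ : i + 1 ≤ J := Finset.mem_range.1 hi
  have h1 : ¬ (be b i ≤ er r) := by
    rw [sm_be_iff]
    have := sm_bs_mono hb (Nat.le_of_succ_le hiJ)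
    linarith
  have h2 : ¬ (be b (i + 1) ≤ er r) := by
    rw [sm_be_iff]
    have := sm_bs_mono hb hiJ
    linarith
  unfold El
  rw [if_neg h1, if_neg h2]

/-- indicator of the window -/
private noncomputable def ci (b : ℕ → ℝ) (r i : ℕ) : ℝ :=
  if bs b i < (r : ℝ) * Real.log 2 ∧ (r : ℝ) * Real.log 2 ≤ bs b (i + 1) then 1 else 0

private theorem ci_nonneg (b : ℕ → ℝ) (r i : ℕ) : 0 ≤ ci b r i := by
  unfold ci
  split_ifs <;> norm_num

private theorem sm_prod {b : ℕ → ℝ} (hb : ∀ i, 2 ≤ b i) (r J : ℕ) :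
    ∏ i ∈ range J, El b r i ≤
      (if bs b J < (r : ℝ) * Real.log 2 then (1 : ℝ) else 0) + (if r = 0 then bp b J else 0) +
        ∑ i ∈ range J, ci b r i * (3 / 2 * b i * (bp b J / bp b (i + 1))) := by
  have hnn : ∀ J, 0 ≤ ∑ i ∈ range J, ci b r i * (3 / 2 * b i * (bp b J / bp b (i + 1))) := by
    intro J
    refine Finset.sum_nonneg fun i _ => mul_nonneg (ci_nonneg b r i) ?_
    have h1 := sm_bp_pos hb J
    have h2 := sm_bp_pos hb (i + 1)
    have h3 := hb i
    positivity
  have hnn0 : ∀ J, 0 ≤ (if r = 0 then bp b J else 0) := by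
    intro J
    split_ifs
    · exact (sm_bp_pos hb J).le
    · exact le_rfl
  induction J with
  | zero =>
    simp only [range_zero, prod_empty, sum_empty, add_zero]
    rcases Nat.eq_zero_or_pos r with hr | hr
    · subst hr
      unfold bs bp
      simp
    · have h1 : bs b 0 < (r : ℝ) * Real.log 2 := by
        unfold bs
        simp only [range_zero, sum_empty]
        have h2 : (0 : ℝ) < r := by exact_mod_cast hr
        have h3 : 0 < Real.log 2 := Real.log_pos (by norm_num)
        positivity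
      rw [if_pos h1, if_neg hr.ne']
      linarith
  | succ J ih =>
    by_cases hC : bs b (J + 1) < (r : ℝ) * Real.log 2
    · rw [sm_one hb hC, if_pos hC]
      linarith [hnn (J + 1), hnn0 (J + 1)]
    · rw [if_neg hC]
      rw [not_lt] at hC
      rw [prod_range_succ]
      by_cases hA : (r : ℝ) * Real.log 2 ≤ bs b J
      · have hE : El b r J = b J := by
          unfold El
          rw [if_pos ((sm_be_iff b r J).2 hA)]
        rw [hE]
        rw [if_neg (not_lt.2 hA)] at ih
        have h1 := mul_le_mul_of_nonneg_right ih (by linarith [hb J] : 0 ≤ b J)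
        refine h1.trans ?_
        rw [sum_range_succ, zero_add, zero_add, add_mul, Finset.sum_mul]
        have h2 : (if r = 0 then bp b J else 0) * b J = (if r = 0 then bp b (J + 1) else 0) := by
          rw [sm_bp_succ]
          split_ifs
          · rfl
          · rw [zero_mul]
        rw [h2]
        have h3 : ∑ i ∈ range J, ci b r i * (3 / 2 * b i * (bp b J / bp b (i + 1))) * b J =
            ∑ i ∈ range J, ci b r i * (3 / 2 * b i * (bp b (J + 1) / bp b (i + 1))) := by
          apply Finset.sum_congr rfl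
          intro i _
          rw [sm_bp_succ b J]
          ring
        rw [h3]
        have h4 : 0 ≤ ci b r J * (3 / 2 * b J * (bp b (J + 1) / bp b (J + 1))) := by
          have h5 := sm_bp_pos hb (J + 1)
          have h6 := hb J
          exact mul_nonneg (ci_nonneg b r J) (by positivity)
        linarith
      · rw [not_le] at hA
        rw [sm_one hb hA, one_mul]
        have hE : El b r J = 1 + b J := by
          unfold El
          rw [if_neg (fun h => absurd ((sm_be_iff b r J).1 h) (not_le.2 hA)),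
            if_pos ((sm_be_iff b r (J + 1)).2 hC)]
        rw [hE, sum_range_succ]
        have hc : ci b r J = 1 := by
          unfold ci
          rw [if_pos ⟨hA, hC⟩]
        rw [hc, one_mul, div_self (sm_bp_pos hb (J + 1)).ne', mul_one]
        have h1 : 0 ≤ ∑ i ∈ range J, ci b r i * (3 / 2 * b i * (bp b (J + 1) / bp b (i + 1))) := by
          refine Finset.sum_nonneg fun i _ => mul_nonneg (ci_nonneg b r i) ?_
          have h1 := sm_bp_pos hb (J + 1)
          have h2 := sm_bp_pos hb (i + 1)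
          have h3 := hb i
          positivity
        linarith [hnn0 (J + 1), hb J]

/-- the number of r in a window -/
private theorem sm_count {b : ℕ → ℝ} (hb : ∀ i, 2 ≤ b i) (N i : ℕ) :
    ∑ r ∈ range N, ci b r i ≤ 2 * b i := by
  have hl2 : (0.6931471803 : ℝ) < Real.log 2 := Real.log_two_gt_d9
  have hl0 : 0 < Real.log 2 := by linarith
  unfold ci
  rw [← Finset.sum_filter, Finset.sum_const, nsmul_eq_mul, mul_one]
  have h1 : (range N).filter (fun r : ℕ => bs b i < (r : ℝ) * Real.log 2 ∧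
      (r : ℝ) * Real.log 2 ≤ bs b (i + 1)) ⊆
      Ioc ⌊bs b i / Real.log 2⌋₊ ⌊bs b (i + 1) / Real.log 2⌋₊ := by
    intro r hr
    obtain ⟨_, h2, h3⟩ := Finset.mem_filter.1 hr
    rw [Finset.mem_Ioc]
    constructor
    · rw [Nat.floor_lt (div_nonneg (sm_bs_nonneg hb i) hl0.le), div_lt_iff₀ hl0]
      exact h2
    · apply Nat.le_floor
      rw [le_div_iff₀ hl0]
      exact h3
  have h2 := Finset.card_le_card h1
  rw [Nat.card_Ioc] at h2
  have h3 : ((⌊bs b (i + 1) / Real.log 2⌋₊ - ⌊bs b i / Real.log 2⌋₊ : ℕ) : ℝ) ≤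
      b i / Real.log 2 + 1 := by
    rcases le_total ⌊bs b i / Real.log 2⌋₊ ⌊bs b (i + 1) / Real.log 2⌋₊ with h | h
    · rw [Nat.cast_sub h]
      have h4 : (⌊bs b (i + 1) / Real.log 2⌋₊ : ℝ) ≤ bs b (i + 1) / Real.log 2 :=
        Nat.floor_le (div_nonneg (sm_bs_nonneg hb (i + 1)) hl0.le)
      have h5 : bs b i / Real.log 2 < (⌊bs b i / Real.log 2⌋₊ : ℝ) + 1 := Nat.lt_floor_add_one _
      have h6 : bs b (i + 1) / Real.log 2 = bs b i / Real.log 2 + b i / Real.log 2 := by
        rw [sm_bs_succ, add_div]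
      linarith
    · rw [Nat.sub_eq_zero_of_le h, Nat.cast_zero]
      have := hb i
      positivity
  have h4 : (((range N).filter (fun r : ℕ => bs b i < (r : ℝ) * Real.log 2 ∧
      (r : ℝ) * Real.log 2 ≤ bs b (i + 1))).card : ℝ) ≤ b i / Real.log 2 + 1 := by
    refine le_trans ?_ h3
    exact_mod_cast h2
  refine h4.trans ?_
  have h5 : b i / Real.log 2 ≤ 3 / 2 * b i := by
    rw [div_le_iff₀ hl0]
    nlinarith [hb i]
  linarith [hb i]

theorem tSm : S_Sm := by
  intro b J d hb hd hlog
  have hl2 : (0.6931471803 : ℝ) < Real.log 2 := Real.log_two_gt_d9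
  have hbpJ := sm_bp_pos hb J
  refine (Finset.sum_le_sum fun r _ => sm_prod hb r J).trans ?_
  rw [Finset.sum_add_distrib, Finset.sum_add_distrib]
  have hA : ∑ r ∈ range (Nat.log 2 d + 1), (if bs b J < (r : ℝ) * Real.log 2 then (1 : ℝ) else 0) ≤
      (Nat.log 2 d : ℝ) + 1 := by
    calc ∑ r ∈ range (Nat.log 2 d + 1), (if bs b J < (r : ℝ) * Real.log 2 then (1 : ℝ) else 0)
        ≤ ∑ r ∈ range (Nat.log 2 d + 1), (1 : ℝ) := by
          apply Finset.sum_le_sum
          intro r _
          split_ifs <;> norm_num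
      _ = (Nat.log 2 d : ℝ) + 1 := by
          rw [Finset.sum_const, card_range, nsmul_eq_mul, mul_one]
          push_cast
          ring
  have hB : ∑ r ∈ range (Nat.log 2 d + 1), (if r = 0 then bp b J else 0) = bp b J := by
    rw [Finset.sum_ite_eq' (range (Nat.log 2 d + 1)) 0 (fun _ => bp b J)]
    rw [if_pos (Finset.mem_range.2 (Nat.succ_pos _))]
  have hC : ∑ r ∈ range (Nat.log 2 d + 1),
      ∑ i ∈ range J, ci b r i * (3 / 2 * b i * (bp b J / bp b (i + 1))) ≤ 3 * bt b J * bp b J := by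
    rw [Finset.sum_comm]
    unfold bt
    rw [Finset.mul_sum, Finset.sum_mul]
    apply Finset.sum_le_sum
    intro i _
    rw [← Finset.sum_mul]
    have h1 := sm_bp_pos hb i
    have h2 := hb i
    have h3 : 3 / 2 * b i * (bp b J / bp b (i + 1)) = 3 / 2 * (bp b J / bp b i) := by
      rw [sm_bp_succ]
      field_simp
    rw [h3]
    have h4 : 0 ≤ 3 / 2 * (bp b J / bp b i) := by positivity
    calc (∑ r ∈ range (Nat.log 2 d + 1), ci b r i) * (3 / 2 * (bp b J / bp b i))
        ≤ 2 * b i * (3 / 2 * (bp b J / bp b i)) :=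
          mul_le_mul_of_nonneg_right (sm_count hb _ i) h4
      _ = 3 * (b i / bp b i) * bp b J := by ring
  have hlog3 : 1 < Real.log d := by
    have h1 : 1 < Real.log 3 := by
      rw [Real.lt_log_iff_exp_lt (by norm_num)]
      have := Real.exp_one_lt_d9
      linarith
    have h2 : (3 : ℝ) ≤ d := by exact_mod_cast hd
    exact lt_of_lt_of_le h1 (Real.log_le_log (by norm_num) h2)
  have hR : (Nat.log 2 d : ℝ) ≤ 3 / 2 * bp b J := by
    have h1 : (Nat.log 2 d : ℝ) * Real.log 2 ≤ bp b J := by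
      refine le_trans ?_ hlog
      rw [← Real.log_pow]
      apply Real.log_le_log (by positivity)
      have : 2 ^ Nat.log 2 d ≤ d := Nat.pow_log_le_self 2 (by omega)
      exact_mod_cast this
    have h2 : (0 : ℝ) ≤ (Nat.log 2 d : ℝ) := Nat.cast_nonneg _
    nlinarith
  rw [hB]
  have e : (7 / 2 + 3 * bt b J) * bp b J = 7 / 2 * bp b J + 3 * bt b J * bp b J := by ring
  rw [e]
  linarith

end Pool.Agent.MPdff.V
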