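import Pool.Agent.Lib.MP_dff12b_nt.SpecV

/-!
# MP_dff12b_nt, theorem A, part G: Upc, the sum for one range of q
-/

namespace Pool.Agent.MPdff.V

open Finset Filter Topology Pool.Agent.Results.MP_00e23e_nt

private theorem Upc_mem {B : ℕ → ℝ} {x e : ℝ} {i l : ℕ} : l ∈ wc B x e i ↔
    ((1 ≤ l ∧ l ≤ ⌊x ^ be B i⌋₊) ∧ l.Prime ∧ x ^ be B (i + 1) < l) ∧ (l : ℝ) ≤ x ^ e := by
  simp only [wc, wn, prs, Finset.mem_filter, Finset.mem_Icc]

private theorem Upc_prs {u v : ℝ} {l : ℕ} : l ∈ prs u v ↔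
    (1 ≤ l ∧ l ≤ ⌊v⌋₊) ∧ l.Prime ∧ u < l := by
  simp only [prs, Finset.mem_filter, Finset.mem_Icc]

private theorem Upc_fam {J : ℕ} {W : ℕ → Finset ℕ} {t : ℕ → Prop} {S : Finset ℕ} :
    S ∈ fam J W t ↔ S ⊆ (range J).biUnion W ∧
      ∀ i ∈ range J, (t i → (S ∩ W i).card = 1) ∧ (S ∩ W i).card ≤ 1 := by
  classical
  unfold fam
  rw [Finset.mem_filter, Finset.mem_powerset]

private theorem Upc_be_anti {B : ℕ → ℝ} (hB : ∀ i, 2 ≤ B i) {i j : ℕ} (h : i ≤ j) : be B j ≤ be B i := by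
  have h1 : bs B i ≤ bs B j := by
    unfold bs
    apply Finset.sum_le_sum_of_subset_of_nonneg (Finset.range_mono h)
    intro m _ _
    linarith [hB m]
  have h2 : Real.exp (-(bs B j)) ≤ Real.exp (-(bs B i)) := by
    apply Real.exp_le_exp.2
    linarith
  unfold be
  linarith

private theorem Upc_be_zero (B : ℕ → ℝ) : be B 0 = 1 / 400 := by
  unfold be bs
  simp

theorem tUpc (hFam : S_Fam) (hWdj : S_Wdj) (hFpr : S_Fpr) (hUpa : S_Upa) (hUpb : S_Upb) :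
    S_Upc := by
  classical
  intro d k w a hD B J x e u v hB hx he he4 hw h2x hu huv
  refine (hUpb d k w a hD B J x e u v hB hx he he4 hw).trans ?_
  have hb0 : (0 : ℝ) < primorial w := by exact_mod_cast primorial_pos w
  have hx0 : 0 < x := lt_of_lt_of_le one_pos hx
  have hdw : (4 * d + 4 : ℝ) ≤ w := by exact_mod_cast hD.hdw
  have hd0 : (0 : ℝ) ≤ d := Nat.cast_nonneg d
  set Q := prs w (x ^ e) with hQ
  set F := fam J (wc B x e) (fun i => be B i ≤ e) with hF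
  -- subsets
  have hsub : ∀ S ∈ F, S ⊆ Q := by
    intro S hS l hl
    have h1 := (Upc_fam.1 hS).1 hl
    rw [Finset.mem_biUnion] at h1
    obtain ⟨i, hi, h2⟩ := h1
    rw [Upc_mem] at h2
    rw [hQ, Upc_prs]
    have h3 : be B J ≤ be B (i + 1) := Upc_be_anti hB (Finset.mem_range.1 hi)
    have h4 := Real.rpow_le_rpow_of_exponent_le hx h3
    exact ⟨⟨h2.1.1.1, Nat.le_floor h2.2⟩, h2.1.2.1, by linarith [h2.1.2.2]⟩
  have hqq : ∀ q ∈ prs (x ^ u) (x ^ v), q.Prime ∧ (w : ℝ) < q ∧ x ^ e < q := by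
    intro q hq
    rw [Upc_prs] at hq
    have h1 : x ^ e ≤ x ^ u := Real.rpow_le_rpow_of_exponent_le hx (he4.trans hu)
    have h2 : be B J ≤ 1 / 400 := by
      rw [← Upc_be_zero B]
      exact Upc_be_anti hB (Nat.zero_le J)
    have h3 : x ^ be B J ≤ x ^ u := Real.rpow_le_rpow_of_exponent_le hx (h2.trans hu)
    exact ⟨hq.2.1, by linarith [hq.2.2], by linarith [hq.2.2]⟩
  -- the terms of Q
  have hQl : ∀ l ∈ Q, l.Prime ∧ (w : ℝ) < l ∧ (rt d k l : ℝ) ≤ d := by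
    intro l hl
    rw [hQ, Upc_prs] at hl
    exact ⟨hl.2.1, hl.2.2, by exact_mod_cast hD.rd l hl.2.1⟩
  set g : ℕ → ℝ := fun l => (rt d k l : ℝ) / ((l : ℝ) - 1 - rt d k l) with hg
  set H : ℕ → ℝ := fun l => 1 - (1 + (rt d k l : ℝ)) / l with hH
  have hgH : ∀ l ∈ Q, (rt d k l : ℝ) / l = g l * H l := by
    intro l hl
    obtain ⟨h1, h2, h3⟩ := hQl l hl
    have h4 : (l : ℝ) ≠ 0 := by
      have : (0 : ℝ) ≤ rt d k l := Nat.cast_nonneg _
      linarith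
    have h5 : (l : ℝ) - 1 - rt d k l ≠ 0 := by
      have : (0 : ℝ) < (l : ℝ) - 1 - rt d k l := by linarith
      exact this.ne'
    simp only [hg, hH]
    field_simp
    ring
  have hH0 : ∀ l ∈ Q, 0 ≤ H l := by
    intro l hl
    obtain ⟨h1, h2, h3⟩ := hQl l hl
    have h4 : (0 : ℝ) < l := by linarith
    simp only [hH]
    rw [sub_nonneg, div_le_one h4]
    linarith
  have hprod : ∀ S ∈ F, (∏ l ∈ S, (rt d k l : ℝ) / l) * ∏ l ∈ Q \ S, H l =
      (∏ l ∈ S, g l) * ∏ l ∈ Q, H l := by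
    intro S hS
    have h1 := Finset.prod_sdiff (f := H) (hsub S hS)
    rw [← h1, Finset.prod_congr rfl fun l hl => hgH l (hsub S hS hl), Finset.prod_mul_distrib]
    ring
  -- Upa
  have hFp := hFpr B x e J (fun i => be B i ≤ e) hB hx he
  have hA : ∀ q ∈ prs (x ^ u) (x ^ v), ∀ S ∈ F,
      (((Icc 1 ⌊x⌋₊).filter (fun n => n ≡ a [MOD primorial w] ∧
          (∀ l ∈ insert q S, (l : ℤ) ∣ fv d k n) ∧
          ∀ l ∈ prs w (x ^ e) \ S, ¬ (l : ℤ) ∣ n * fv d k n)).card : ℝ) ≤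
      2 * (x / primorial w) * ((rt d k q : ℝ) / q) * (∏ l ∈ Q, H l) * (∏ l ∈ S, g l) +
        d * x ^ (95 * e) := by
    intro q hq S hS
    obtain ⟨h1, h2, h3⟩ := hqq q hq
    refine (hUpa d k w a hD x e S q hx h2x (hsub S hS) h1 h2 h3).trans ?_
    have h4 : q ∉ S := by
      intro h5
      have h6 := hsub S hS h5
      rw [hQ, Upc_prs] at h6
      have h7 : (q : ℝ) ≤ x ^ e := (Nat.le_floor_iff (by positivity)).1 h6.1.2
      linarith
    rw [Finset.prod_insert h4]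
    have h5 : 2 * (x / (primorial w : ℝ)) * ((rt d k q : ℝ) / q * ∏ l ∈ S, (rt d k l : ℝ) / l) *
        ∏ l ∈ prs w (x ^ e) \ S, (1 - (1 + (rt d k l : ℝ)) / l) =
        2 * (x / primorial w) * ((rt d k q : ℝ) / q) * (∏ l ∈ Q, H l) * (∏ l ∈ S, g l) := by
      have h6 := hprod S hS
      calc _ = 2 * (x / (primorial w : ℝ)) * ((rt d k q : ℝ) / q) *
            ((∏ l ∈ S, (rt d k l : ℝ) / l) * ∏ l ∈ Q \ S, H l) := by ring
        _ = _ := by rw [h6]; ring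
    rw [h5]
    have h7 := (hFp.1 S hS).2
    have h8 : (d : ℝ) * ((∏ l ∈ S, l : ℕ) : ℝ) * x ^ (92 * e) ≤ d * x ^ (95 * e) := by
      have h9 : x ^ (95 * e) = x ^ (3 * e) * x ^ (92 * e) := by
        rw [← Real.rpow_add hx0]
        congr 1
        ring
      rw [h9, mul_assoc]
      gcongr
    linarith
  have hsum : ∑ q ∈ prs (x ^ u) (x ^ v), ∑ S ∈ F,
        (((Icc 1 ⌊x⌋₊).filter (fun n => n ≡ a [MOD primorial w] ∧
          (∀ l ∈ insert q S, (l : ℤ) ∣ fv d k n) ∧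
          ∀ l ∈ prs w (x ^ e) \ S, ¬ (l : ℤ) ∣ n * fv d k n)).card : ℝ) ≤
      ∑ q ∈ prs (x ^ u) (x ^ v), ∑ S ∈ F,
        (2 * (x / primorial w) * ((rt d k q : ℝ) / q) * (∏ l ∈ Q, H l) * (∏ l ∈ S, g l) +
        d * x ^ (95 * e)) :=
    Finset.sum_le_sum fun q hq => Finset.sum_le_sum fun S hS => hA q hq S hS
  refine hsum.trans ?_
  -- the main term
  have hfam := hFam J (wc B x e) (fun i => be B i ≤ e) g (fun i _ j _ hij => by
    refine Finset.disjoint_of_subset_left (Finset.filter_subset _ _)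
      (Finset.disjoint_of_subset_right (Finset.filter_subset _ _) (hWdj B x i j hB hx hij)))
  have h1 : ∑ q ∈ prs (x ^ u) (x ^ v), ∑ S ∈ F,
        (2 * (x / primorial w) * ((rt d k q : ℝ) / q) * (∏ l ∈ Q, H l) * (∏ l ∈ S, g l) +
        d * x ^ (95 * e)) =
      2 * (x / primorial w) * (∑ q ∈ prs (x ^ u) (x ^ v), (rt d k q : ℝ) / q) * (∏ l ∈ Q, H l) *
        (∑ S ∈ F, ∏ l ∈ S, g l) +
      ((prs (x ^ u) (x ^ v)).card : ℝ) * ((F.card : ℝ) * (d * x ^ (95 * e))) := by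
    simp only [Finset.sum_add_distrib, Finset.sum_const, nsmul_eq_mul]
    congr 1
    simp only [← Finset.mul_sum]
    rw [← Finset.sum_mul, ← Finset.sum_mul, ← Finset.mul_sum]
  rw [h1, hfam]
  have h2 : ((prs (x ^ u) (x ^ v)).card : ℝ) ≤ x ^ v := by
    have h3 : (prs (x ^ u) (x ^ v)).card ≤ ⌊x ^ v⌋₊ := by
      unfold prs
      refine (Finset.card_filter_le _ _).trans ?_
      rw [Nat.card_Icc]
      omega
    exact (by exact_mod_cast h3 : ((prs (x ^ u) (x ^ v)).card : ℝ) ≤ ⌊x ^ v⌋₊).trans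
      (Nat.floor_le (by positivity))
  have h3 : (F.card : ℝ) ≤ x ^ (3 * e) := hFp.2.1
  have h4 : ((prs (x ^ u) (x ^ v)).card : ℝ) * ((F.card : ℝ) * (d * x ^ (95 * e))) ≤
      d * x ^ (v + 98 * e) := by
    calc ((prs (x ^ u) (x ^ v)).card : ℝ) * ((F.card : ℝ) * (d * x ^ (95 * e))) ≤
          x ^ v * (x ^ (3 * e) * (d * x ^ (95 * e))) := by gcongr
      _ = d * (x ^ v * (x ^ (3 * e) * x ^ (95 * e))) := by ring
      _ = d * x ^ (v + 98 * e) := by
        rw [← Real.rpow_add hx0, ← Real.rpow_add hx0]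
        congr 2
        ring
  exact add_le_add le_rfl h4

end Pool.Agent.MPdff.V
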