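import Pool.Agent.Lib.MP_dff12b_nt.SpecV

/-!
# MP_dff12b_nt, theorem A, part G: Upe, limits of the window factors
-/

namespace Pool.Agent.MPdff.V

open Finset Filter Topology Pool.Agent.Results.MP_00e23e_nt

private theorem Upe_mem {B : ℕ → ℝ} {x e : ℝ} {i l : ℕ} : l ∈ wc B x e i ↔
    ((1 ≤ l ∧ l ≤ ⌊x ^ be B i⌋₊) ∧ l.Prime ∧ x ^ be B (i + 1) < l) ∧ (l : ℝ) ≤ x ^ e := by
  simp only [wc, wn, prs, Finset.mem_filter, Finset.mem_Icc]

private theorem Upe_prs {u v : ℝ} {l : ℕ} : l ∈ prs u v ↔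
    (1 ≤ l ∧ l ≤ ⌊v⌋₊) ∧ l.Prime ∧ u < l := by
  simp only [prs, Finset.mem_filter, Finset.mem_Icc]

private theorem Upe_be_pos (B : ℕ → ℝ) (i : ℕ) : 0 < be B i := by
  unfold be
  positivity

private theorem Upe_be_lt {B : ℕ → ℝ} (hB : ∀ i, 2 ≤ B i) (i : ℕ) : be B (i + 1) < be B i := by
  unfold be
  have h1 : Real.exp (-(bs B (i + 1))) < Real.exp (-(bs B i)) := by
    apply Real.exp_lt_exp.2
    unfold bs
    rw [Finset.sum_range_succ]
    linarith [hB i]
  linarith

private theorem Upe_be_log {B : ℕ → ℝ} (i : ℕ) : Real.log (be B i / be B (i + 1)) = B i := by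
  have h1 : be B i / be B (i + 1) = Real.exp (B i) := by
    unfold be
    rw [div_div_div_cancel_right₀ (by norm_num), ← Real.exp_sub]
    congr 1
    unfold bs
    rw [Finset.sum_range_succ]
    ring
  rw [h1, Real.log_exp]

private theorem Upe_er_pos (r : ℕ) : 0 < er r := by
  unfold er
  positivity

private theorem Upe_fac (hWh : S_Wh) {d : ℕ} {k : ℤ} {w a : ℕ} (hD : Dat d k w a) {B : ℕ → ℝ}
    (hB : ∀ i, 2 ≤ B i) (r i : ℕ) : ∃ L : ℝ, L ≤ El B r i ∧
    Tendsto (fun x : ℝ => if be B i ≤ er r then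
        ∑ l ∈ wc B x (er r) i, (rt d k l : ℝ) / ((l : ℝ) - 1 - rt d k l)
      else 1 + ∑ l ∈ wc B x (er r) i, (rt d k l : ℝ) / ((l : ℝ) - 1 - rt d k l)) atTop (𝓝 L) := by
  have hlt := Upe_be_lt hB i
  have hp1 := Upe_be_pos B (i + 1)
  have hp0 := Upe_be_pos B i
  have hBi := hB i
  by_cases h1 : be B i ≤ er r
  · refine ⟨B i, ?_, ?_⟩
    · rw [El, if_pos h1]
    · have h2 := (hWh d k w a hD (be B (i + 1)) (be B i) hp1 hlt).2
      rw [Upe_be_log] at h2
      refine h2.congr' ?_
      filter_upwards [eventually_ge_atTop (1 : ℝ)] with x hx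
      rw [if_pos h1]
      refine Finset.sum_congr ?_ fun _ _ => rfl
      ext l
      rw [Upe_mem, Upe_prs]
      constructor
      · intro h3
        refine ⟨h3, ?_⟩
        have h4 : (l : ℝ) ≤ x ^ be B i :=
          (Nat.le_floor_iff (by positivity)).1 h3.1.2
        exact h4.trans (Real.rpow_le_rpow_of_exponent_le hx h1)
      · exact fun h3 => h3.1
  · by_cases h2 : be B (i + 1) < er r
    · refine ⟨1 + Real.log (er r / be B (i + 1)), ?_, ?_⟩
      · rw [El, if_neg h1, if_pos h2.le]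
        have h3 : Real.log (er r / be B (i + 1)) ≤ Real.log (be B i / be B (i + 1)) := by
          apply Real.log_le_log (div_pos (Upe_er_pos r) hp1)
          push Not at h1
          gcongr
        rw [Upe_be_log] at h3
        linarith
      · have h3 := ((hWh d k w a hD (be B (i + 1)) (er r) hp1 h2).2).const_add 1
        refine h3.congr' ?_
        filter_upwards [eventually_ge_atTop (1 : ℝ)] with x hx
        rw [if_neg h1]
        congr 1
        refine Finset.sum_congr ?_ fun _ _ => rfl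
        ext l
        rw [Upe_mem, Upe_prs]
        push Not at h1
        constructor
        · intro h4
          have h5 : (l : ℝ) ≤ x ^ er r := (Nat.le_floor_iff (by positivity)).1 h4.1.2
          refine ⟨⟨⟨h4.1.1, ?_⟩, h4.2⟩, h5⟩
          exact Nat.le_floor (h5.trans (Real.rpow_le_rpow_of_exponent_le hx h1.le))
        · intro h4
          exact ⟨⟨h4.1.1.1, Nat.le_floor h4.2⟩, h4.1.2⟩
    · refine ⟨1, ?_, ?_⟩
      · rw [El, if_neg h1]
        split_ifs
        · linarith
        · exact le_rfl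
      · refine (tendsto_const_nhds (x := (1 : ℝ))).congr' ?_
        filter_upwards [eventually_ge_atTop (1 : ℝ)] with x hx
        rw [if_neg h1]
        have h3 : wc B x (er r) i = ∅ := by
          rw [Finset.eq_empty_iff_forall_notMem]
          intro l hl
          rw [Upe_mem] at hl
          push Not at h2
          have h4 := Real.rpow_le_rpow_of_exponent_le hx h2
          linarith [hl.2, hl.1.2.2]
        rw [h3, Finset.sum_empty, add_zero]

theorem tUpe (hWh : S_Wh) : S_Upe := by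
  intro d k w a hD B J r hB
  choose L hL hF using fun i => Upe_fac hWh hD hB r i
  have hEl : ∀ i, 1 ≤ El B r i := fun i => by
    have hBi := hB i
    unfold El
    split_ifs <;> linarith
  have hEl0 : 0 < ∏ i ∈ range J, El B r i :=
    Finset.prod_pos fun i _ => lt_of_lt_of_le one_pos (hEl i)
  -- nonnegativity
  have hnn : ∀ᶠ x : ℝ in atTop, ∀ i ∈ range J, 0 ≤ if be B i ≤ er r then
        ∑ l ∈ wc B x (er r) i, (rt d k l : ℝ) / ((l : ℝ) - 1 - rt d k l)
      else 1 + ∑ l ∈ wc B x (er r) i, (rt d k l : ℝ) / ((l : ℝ) - 1 - rt d k l) := by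
    rw [Filter.eventually_all_finset]
    intro i _
    have h1 : Tendsto (fun x : ℝ => x ^ be B (i + 1)) atTop atTop :=
      tendsto_rpow_atTop (Upe_be_pos B (i + 1))
    filter_upwards [h1.eventually_ge_atTop (w : ℝ)] with x hx
    have h2 : 0 ≤ ∑ l ∈ wc B x (er r) i, (rt d k l : ℝ) / ((l : ℝ) - 1 - rt d k l) := by
      refine Finset.sum_nonneg fun l hl => ?_
      rw [Upe_mem] at hl
      have h3 : (w : ℝ) < l := lt_of_le_of_lt hx hl.1.2.2
      have h4 : (rt d k l : ℝ) ≤ d := by exact_mod_cast hD.rd l hl.1.2.1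
      have h5 : (4 * d + 4 : ℝ) ≤ w := by exact_mod_cast hD.hdw
      have h6 : (0 : ℝ) ≤ d := Nat.cast_nonneg d
      refine div_nonneg (Nat.cast_nonneg _) ?_
      linarith
    split_ifs
    · exact h2
    · linarith
  have hlim : Tendsto (fun x : ℝ => ∏ i ∈ range J, if be B i ≤ er r then
        ∑ l ∈ wc B x (er r) i, (rt d k l : ℝ) / ((l : ℝ) - 1 - rt d k l)
      else 1 + ∑ l ∈ wc B x (er r) i, (rt d k l : ℝ) / ((l : ℝ) - 1 - rt d k l)) atTop
      (𝓝 (∏ i ∈ range J, L i)) := tendsto_finsetProd _ fun i _ => hF i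
  have hL0 : ∀ i ∈ range J, 0 ≤ L i := fun i hi =>
    ge_of_tendsto (hF i) (hnn.mono fun x hx => hx i hi)
  have hle : ∏ i ∈ range J, L i ≤ ∏ i ∈ range J, El B r i :=
    Finset.prod_le_prod hL0 fun i _ => hL i
  have hlt : ∏ i ∈ range J, L i < 101 / 100 * ∏ i ∈ range J, El B r i := by
    linarith
  filter_upwards [hnn, hlim.eventually_lt_const hlt] with x h1 h2
  exact ⟨Finset.prod_nonneg h1, h2.le⟩

end Pool.Agent.MPdff.V
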