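import Pool.Agent.Lib.MP_dff12b_nt.SpecV

/-!
# MP_dff12b_nt, theorem A, part G: Upf, the upper bound for the range T_r
-/

namespace Pool.Agent.MPdff.V

open Finset Filter Topology Pool.Agent.Results.MP_00e23e_nt

private theorem Upf_lo (r : ℕ) : 1 / 400 ≤ lo r ∧ lo r < hi r := by
  unfold lo hi
  rcases Nat.eq_zero_or_pos r with hr | hr
  · subst hr
    rw [if_pos rfl]
    norm_num
  · rw [if_neg hr.ne']
    have h1 : (2 : ℝ) ≤ 2 ^ r := by
      calc (2 : ℝ) = 2 ^ 1 := (pow_one 2).symm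
        _ ≤ 2 ^ r := pow_le_pow_right₀ (by norm_num) hr
    have h2 : (1 : ℝ) / 2 ^ r ≤ 1 / 2 := one_div_le_one_div_of_le (by norm_num) h1
    have h3 : (1 : ℝ) / 2 ^ (r + 1) < 1 / 2 ^ r := by
      apply one_div_lt_one_div_of_lt (by positivity)
      rw [pow_succ]
      linarith
    exact ⟨by linarith, by linarith⟩

private theorem Upf_log (r : ℕ) : Real.log (hi r / lo r) < 7 / 2 ^ r := by
  unfold lo hi
  rcases Nat.eq_zero_or_pos r with hr | hr
  · subst hr
    rw [if_pos rfl]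
    have h1 : ((1 : ℝ) - 1 / 2 ^ (0 + 1)) / (1 / 400) = 200 := by norm_num
    rw [h1, pow_zero, div_one, Real.log_lt_iff_lt_exp (by norm_num)]
    have h2 : Real.exp 7 = Real.exp 1 ^ 7 := by
      rw [← Real.exp_nat_mul]
      norm_num
    rw [h2]
    have h3 := Real.exp_one_gt_d9
    calc (200 : ℝ) < (2.5 : ℝ) ^ 7 := by norm_num
      _ ≤ Real.exp 1 ^ 7 := by
        apply pow_le_pow_left₀ (by norm_num)
        linarith
  · rw [if_neg hr.ne']
    have h1 : (2 : ℝ) ≤ 2 ^ r := by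
      calc (2 : ℝ) = 2 ^ 1 := (pow_one 2).symm
        _ ≤ 2 ^ r := pow_le_pow_right₀ (by norm_num) hr
    have h2 : (1 : ℝ) / 2 ^ r ≤ 1 / 2 := one_div_le_one_div_of_le (by norm_num) h1
    have h0 : (0 : ℝ) < 1 / 2 ^ r := by positivity
    have h3 : (1 : ℝ) / 2 ^ (r + 1) = 1 / 2 ^ r / 2 := by
      rw [pow_succ]
      field_simp
    rw [h3]
    have h4 : (7 : ℝ) / 2 ^ r = 7 * (1 / 2 ^ r) := by ring
    rw [h4]
    set t : ℝ := 1 / 2 ^ r
    have h5 : 0 < 1 - t := by linarith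
    have h6 : (1 - t / 2) / (1 - t) ≤ 1 + t := by
      rw [div_le_iff₀ h5]
      nlinarith
    calc Real.log ((1 - t / 2) / (1 - t)) ≤ (1 - t / 2) / (1 - t) - 1 :=
          Real.log_le_sub_one_of_pos (div_pos (by linarith) h5)
      _ ≤ t := by linarith
      _ < 7 * t := by linarith

private theorem Upf_er (r : ℕ) : 0 < er r ∧ er r ≤ 1 / 400 ∧ (1 ≤ r → er r < 1 / 400) := by
  unfold er
  have h1 : (1 : ℝ) ≤ 2 ^ r := one_le_pow₀ (by norm_num)
  refine ⟨by positivity, ?_, fun hr => ?_⟩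
  · apply one_div_le_one_div_of_le (by norm_num)
    linarith
  · apply one_div_lt_one_div_of_lt (by norm_num)
    have h1 : (2 : ℝ) ≤ 2 ^ r := by
      calc (2 : ℝ) = 2 ^ 1 := (pow_one 2).symm
        _ ≤ 2 ^ r := pow_le_pow_right₀ (by norm_num) hr
    linarith

private theorem Upf_be_pos (B : ℕ → ℝ) (i : ℕ) : 0 < be B i := by
  unfold be
  positivity

theorem tUpf (hVra : S_Vra) (hVlo : S_Vlo) (hUpc : S_Upc) (hUpd : S_Upd) (hUpe : S_Upe) :
    S_Upf := by
  classical
  intro d k w a hD B J r hB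
  obtain ⟨hlo, hlh⟩ := Upf_lo r
  obtain ⟨he0, he4, he1⟩ := Upf_er r
  have hEl1 : ∀ i, 1 ≤ El B r i := fun i => by
    have hBi := hB i
    unfold El
    split_ifs <;> linarith
  have hE1 : 1 ≤ ∏ i ∈ range J, El B r i := by
    have h1 : ∏ i ∈ range J, (1 : ℝ) ≤ ∏ i ∈ range J, El B r i :=
      Finset.prod_le_prod (fun _ _ => zero_le_one) fun i _ => hEl1 i
    rwa [Finset.prod_const_one] at h1
  have hφ : (0 : ℝ) < ((primorial w).totient : ℝ) := by
    exact_mod_cast Nat.totient_pos.2 (primorial_pos w)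
  have hb0 : (0 : ℝ) < primorial w := by exact_mod_cast primorial_pos w
  -- (1)
  have e1 : ∀ᶠ x : ℝ in atTop, ∑ q ∈ prs (x ^ lo r) (x ^ hi r), (rt d k q : ℝ) / q < 7 / 2 ^ r :=
    (hD.win (lo r) (hi r) (by linarith) hlh).eventually_lt_const (Upf_log r)
  -- (2)
  have e2 := hUpd d k w a hD (er r) he0
  -- Vlo
  obtain ⟨c, hc, e3⟩ := hVlo d k w a hD (1 / 400) (by norm_num) (by norm_num)
  -- (3)
  have e4 : ∀ᶠ x : ℝ in atTop, Vx d k w (er r) x ≤ 101 / 100 * 2 ^ r * Vx d k w (1 / 400) x := by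
    rcases Nat.eq_zero_or_pos r with hr | hr
    · subst hr
      have h1 : er 0 = 1 / 400 := by
        unfold er
        norm_num
      rw [h1]
      filter_upwards [e3, eventually_gt_atTop (1 : ℝ)] with x h2 h3
      have h4 : 0 < Vx d k w (1 / 400) x := lt_of_lt_of_le (div_pos hc (Real.log_pos h3)) h2
      rw [pow_zero, mul_one]
      linarith
    · have h1 := hVra d k w a hD (er r) (1 / 400) he0 (he1 hr)
      have h2 : (1 / 400 : ℝ) / er r = 2 ^ r := by
        unfold er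
        field_simp
      rw [h2] at h1
      have h3 : (2 : ℝ) ^ r < 101 / 100 * 2 ^ r := by
        have : (0 : ℝ) < 2 ^ r := by positivity
        linarith
      filter_upwards [e3, eventually_gt_atTop (1 : ℝ), h1.eventually_lt_const h3] with x h5 h6 h7
      have h4 : 0 < Vx d k w (1 / 400) x := lt_of_lt_of_le (div_pos hc (Real.log_pos h6)) h5
      rw [div_lt_iff₀ h4] at h7
      exact h7.le
  -- (4)
  have e5 := hUpe d k w a hD B J r hB
  -- (5)
  have e6 : ∀ᶠ x : ℝ in atTop, (d : ℝ) * x ^ (hi r + 98 * er r) ≤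
      c / ((primorial w).totient : ℝ) * (x / Real.log x ^ 2) := by
    have hδ : (0 : ℝ) < 51 / 200 / 2 ^ r := by positivity
    have h1 := isLittleO_log_rpow_rpow_atTop (2 : ℝ) hδ
    have h2 : (0 : ℝ) < c / ((primorial w).totient : ℝ) / (d + 1) := by positivity
    filter_upwards [h1.bound h2, eventually_gt_atTop (1 : ℝ)] with x h3 h4
    have hL := Real.log_pos h4
    have hx0 : 0 < x := by linarith
    rw [Real.norm_of_nonneg (by positivity), Real.norm_of_nonneg (by positivity),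
      Real.rpow_two] at h3
    have h5 : x ^ (hi r + 98 * er r) = x / x ^ (51 / 200 / 2 ^ r : ℝ) := by
      have h6 : x / x ^ (51 / 200 / 2 ^ r : ℝ) = x ^ (1 - 51 / 200 / 2 ^ r : ℝ) := by
        rw [Real.rpow_sub hx0, Real.rpow_one]
      rw [h6]
      congr 1
      unfold hi er
      rw [pow_succ]
      field_simp
      ring
    rw [h5]
    have h7 : (0 : ℝ) < x ^ (51 / 200 / 2 ^ r : ℝ) := by positivity
    have h8 : (d : ℝ) * Real.log x ^ 2 ≤
        c / ((primorial w).totient : ℝ) * x ^ (51 / 200 / 2 ^ r : ℝ) := by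
      have h9 : (d + 1 : ℝ) * Real.log x ^ 2 ≤ (d + 1) *
          (c / ((primorial w).totient : ℝ) / (d + 1) * x ^ (51 / 200 / 2 ^ r : ℝ)) := by
        gcongr
      have h10 : (d + 1 : ℝ) *
          (c / ((primorial w).totient : ℝ) / (d + 1) * x ^ (51 / 200 / 2 ^ r : ℝ)) =
          c / ((primorial w).totient : ℝ) * x ^ (51 / 200 / 2 ^ r : ℝ) := by
        field_simp
      rw [h10] at h9
      have h11 : (0 : ℝ) ≤ Real.log x ^ 2 := by positivity
      nlinarith
    rw [mul_div_assoc', mul_div_assoc', div_le_div_iff₀ h7 (by positivity)]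
    calc (d : ℝ) * x * Real.log x ^ 2 = x * (d * Real.log x ^ 2) := by ring
      _ ≤ x * (c / ((primorial w).totient : ℝ) * x ^ (51 / 200 / 2 ^ r : ℝ)) := by gcongr
      _ = _ := by ring
  -- largeness
  have e7 : ∀ᶠ x : ℝ in atTop, (w : ℝ) ≤ x ^ be B J :=
    (tendsto_rpow_atTop (Upf_be_pos B J)).eventually_ge_atTop _
  have e8 : ∀ᶠ x : ℝ in atTop, (2 : ℝ) ≤ x ^ er r :=
    (tendsto_rpow_atTop he0).eventually_ge_atTop _
  filter_upwards [e1, e2, e3, e4, e5, e6, e7, e8, eventually_gt_atTop (1 : ℝ)]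
    with x h1 h2 h3 h4 h5 h6 h7 h8 h9
  have hL := Real.log_pos h9
  have hx0 : 0 < x := by linarith
  have hV : 0 < Vx d k w (1 / 400) x := lt_of_lt_of_le (div_pos hc hL) h3
  refine (hUpc d k w a hD B J x (er r) (lo r) (hi r) hB h9.le he0 he4 h7 h8 hlo hlh.le).trans ?_
  set V := Vx d k w (1 / 400) x with hVdef
  set E := ∏ i ∈ range J, El B r i with hEdef
  set S1 := ∑ q ∈ prs (x ^ lo r) (x ^ hi r), (rt d k q : ℝ) / q with hS1
  have hS0 : 0 ≤ S1 := Finset.sum_nonneg fun q _ => by positivity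
  set P1 := ∏ l ∈ prs w (x ^ er r), (1 - (1 + (rt d k l : ℝ)) / l) with hP1
  have hP1' : P1 ≤ 11 / 10 * ((primorial w : ℝ) / ((primorial w).totient : ℝ)) /
      (er r * Real.log x) * (101 / 100 * 2 ^ r * V) := by
    refine h2.2.trans ?_
    gcongr
  have hXV : (d : ℝ) * x ^ (hi r + 98 * er r) ≤ Xx w x * V := by
    refine h6.trans ?_
    calc c / ((primorial w).totient : ℝ) * (x / Real.log x ^ 2) = Xx w x * (c / Real.log x) := by
          unfold Xx
          field_simp
      _ ≤ Xx w x * V := by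
        have : 0 ≤ Xx w x := by
          unfold Xx
          positivity
        gcongr
  have hX0 : 0 < Xx w x := by
    unfold Xx
    positivity
  have hmain := mul_le_mul (mul_le_mul (mul_le_mul_of_nonneg_left h1.le
    (show 0 ≤ 2 * (x / (primorial w : ℝ)) by positivity)) hP1' h2.1 (by positivity)) h5.2 h5.1
    (by positivity)
  refine (add_le_add hmain hXV).trans ?_
  have heq : 2 * (x / (primorial w : ℝ)) * (7 / 2 ^ r) *
      (11 / 10 * ((primorial w : ℝ) / ((primorial w).totient : ℝ)) /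
      (er r * Real.log x) * (101 / 100 * 2 ^ r * V)) * (101 / 100 * E) =
      (2 * 7 * (11 / 10) * 400 * (101 / 100) * (101 / 100)) * (2 ^ r * E * (Xx w x * V)) := by
    unfold Xx er
    field_simp
  rw [heq]
  have h10 : Xx w x * V ≤ 2 ^ r * E * (Xx w x * V) := by
    have h11 : (1 : ℝ) ≤ 2 ^ r := one_le_pow₀ (by norm_num)
    have h12 : (1 : ℝ) ≤ 2 ^ r * E := by nlinarith
    have h13 : 0 < Xx w x * V := by positivity
    nlinarith
  have h14 : 0 < Xx w x * V := by positivity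
  have h15 : (6500 : ℝ) * 2 ^ r * E * (Xx w x * V) = 6500 * (2 ^ r * E * (Xx w x * V)) := by ring
  rw [h15]
  linarith

end Pool.Agent.MPdff.V
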