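import Pool.Agent.Lib.MP_dff12b_nt.SpecV

/-!
MP_dff12b_nt, part G, module Wdj: the windows are disjoint.
-/

namespace Pool.Agent.MPdff.V

open Finset Filter Topology Pool.Agent.Results.MP_00e23e_nt

private lemma Wdj_mem_prs {u v : ℝ} (hv : 0 ≤ v) {l : ℕ} :
    l ∈ prs u v ↔ (l.Prime ∧ u < l ∧ (l : ℝ) ≤ v) := by
  unfold prs
  rw [mem_filter, mem_Icc]
  constructor
  · rintro ⟨⟨_, h2⟩, h3, h4⟩
    exact ⟨h3, h4, (Nat.le_floor_iff hv).1 h2⟩
  · rintro ⟨h1, h2, h3⟩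
    exact ⟨⟨h1.one_lt.le, (Nat.le_floor_iff hv).2 h3⟩, h1, h2⟩

private lemma Wdj_be {B : ℕ → ℝ} (hB : ∀ i, 2 ≤ B i) {i j : ℕ} (hij : i ≤ j) : be B j ≤ be B i := by
  have h1 : bs B i ≤ bs B j := by
    unfold bs
    apply Finset.sum_le_sum_of_subset_of_nonneg (Finset.range_mono hij)
    intro m _ _
    linarith [hB m]
  have h2 : Real.exp (-(bs B j)) ≤ Real.exp (-(bs B i)) := by
    apply Real.exp_le_exp.2
    linarith
  unfold be
  linarith

private lemma Wdj_lt {B : ℕ → ℝ} {x : ℝ} {i j : ℕ} (hB : ∀ i, 2 ≤ B i) (hx : 1 ≤ x) (hij : i < j) :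
    Disjoint (wn B x i) (wn B x j) := by
  rw [Finset.disjoint_left]
  intro l h1 h2
  have hx0 : 0 ≤ x := by linarith
  have h3 := ((Wdj_mem_prs (by positivity)).1 h1).2.1
  have h4 := ((Wdj_mem_prs (by positivity)).1 h2).2.2
  have h5 : x ^ be B j ≤ x ^ be B (i + 1) := Real.rpow_le_rpow_of_exponent_le hx (Wdj_be hB hij)
  linarith

theorem tWdj : S_Wdj := by
  intro B x i j hB hx hij
  rcases lt_or_gt_of_ne hij with h | h
  · exact Wdj_lt hB hx h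
  · exact (Wdj_lt hB hx h).symm

end Pool.Agent.MPdff.V
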