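import Pool.Agent.Lib.MP_dff12b_nt.SpecV

/-!
# MP_dff12b_nt, theorem A, part V: Yb, the average of Y over G
-/

namespace Pool.Agent.MPdff.V

open Finset Filter Topology Pool.Agent.Results.MP_00e23e_nt

private theorem Yb_prs {u v : ℝ} {l : ℕ} : l ∈ prs u v ↔
    (1 ≤ l ∧ l ≤ ⌊v⌋₊) ∧ l.Prime ∧ u < l := by
  simp only [prs, Finset.mem_filter, Finset.mem_Icc]

private theorem Yb_hi_lo (r : ℕ) : lo (r + 1) = hi r := by
  unfold lo hi
  rw [if_neg (Nat.succ_ne_zero r)]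

private theorem Yb_lo (r : ℕ) : 1 - lo r ≤ 1 / 2 ^ r := by
  unfold lo
  rcases Nat.eq_zero_or_pos r with hr | hr
  · subst hr
    rw [if_pos rfl]
    norm_num
  · rw [if_neg hr.ne']
    linarith

/-- The covering of the range of `q`. -/
private theorem Yb_cover {d : ℕ} (hd : 3 ≤ d) {x : ℝ} (hx : 1 < x) {q : ℕ}
    (hq : q ∈ prs (x ^ ((1 : ℝ) / 400)) (x ^ (1 - 1 / (d : ℝ)))) :
    ∃ r ∈ range (Nat.log 2 d + 1), q ∈ prs (x ^ lo r) (x ^ hi r) := by
  rw [Yb_prs] at hq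
  have hx0 : 0 < x := by linarith
  have hqx : (q : ℝ) ≤ x ^ (1 - 1 / (d : ℝ)) := (Nat.le_floor_iff (by positivity)).1 hq.1.2
  have hex : ∃ r, (q : ℝ) ≤ x ^ hi r := by
    refine ⟨Nat.log 2 d, hqx.trans (Real.rpow_le_rpow_of_exponent_le hx.le ?_)⟩
    unfold hi
    have h1 : d < 2 ^ (Nat.log 2 d + 1) := Nat.lt_pow_succ_log_self (by norm_num) d
    have h2 : (d : ℝ) ≤ 2 ^ (Nat.log 2 d + 1) := by exact_mod_cast h1.le
    have h3 : (0 : ℝ) < d := by
      have : 0 < d := by omega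
      exact_mod_cast this
    have h4 : (1 : ℝ) / 2 ^ (Nat.log 2 d + 1) ≤ 1 / d := one_div_le_one_div_of_le h3 h2
    linarith
  classical
  have h1 := Nat.find_spec hex
  have h2 : Nat.find hex ≤ Nat.log 2 d := by
    refine Nat.find_min' hex (hqx.trans (Real.rpow_le_rpow_of_exponent_le hx.le ?_))
    unfold hi
    have h1 : d < 2 ^ (Nat.log 2 d + 1) := Nat.lt_pow_succ_log_self (by norm_num) d
    have h2 : (d : ℝ) ≤ 2 ^ (Nat.log 2 d + 1) := by exact_mod_cast h1.le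
    have h3 : (0 : ℝ) < d := by
      have : 0 < d := by omega
      exact_mod_cast this
    have h4 : (1 : ℝ) / 2 ^ (Nat.log 2 d + 1) ≤ 1 / d := one_div_le_one_div_of_le h3 h2
    linarith
  refine ⟨Nat.find hex, Finset.mem_range.2 (by omega), ?_⟩
  rw [Yb_prs]
  refine ⟨⟨hq.1.1, Nat.le_floor h1⟩, hq.2.1, ?_⟩
  rcases Nat.eq_zero_or_pos (Nat.find hex) with h0 | h0
  · rw [h0]
    have h3 : lo 0 = 1 / 400 := by
      unfold lo
      rw [if_pos rfl]
    rw [h3]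
    exact hq.2.2
  · have h3 := Nat.find_min hex (m := Nat.find hex - 1) (by omega)
    push Not at h3
    have h4 : lo (Nat.find hex) = hi (Nat.find hex - 1) := by
      rw [← Yb_hi_lo, Nat.sub_add_cancel h0]
    rw [h4]
    exact h3

private theorem Yb_Yp {d : ℕ} {k : ℤ} (hd : 3 ≤ d) {x : ℝ} (hx : 1 < x) (p : ℕ) :
    Yp d k x p ≤ ∑ r ∈ range (Nat.log 2 d + 1), 1 / 2 ^ r *
      (((prs (x ^ lo r) (x ^ hi r)).filter (fun q : ℕ => (q : ℤ) ∣ fv d k p)).card : ℝ) := by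
  classical
  unfold Yp
  set T := (prs (x ^ ((1 : ℝ) / 400)) (x ^ (1 - 1 / (d : ℝ)))).filter
    (fun q : ℕ => (q : ℤ) ∣ fv d k p) with hT
  have hx0 : 0 < x := by linarith
  have hL := Real.log_pos hx
  have h1 : ∀ q ∈ T, 1 - Real.log q / Real.log x ≤
      ∑ r ∈ range (Nat.log 2 d + 1), if q ∈ prs (x ^ lo r) (x ^ hi r) then (1 : ℝ) / 2 ^ r else 0 := by
    intro q hq
    obtain ⟨r, hr, hqr⟩ := Yb_cover hd hx (Finset.mem_filter.1 hq).1
    have h2 : 1 - Real.log q / Real.log x ≤ 1 / 2 ^ r := by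
      refine le_trans ?_ (Yb_lo r)
      rw [Yb_prs] at hqr
      have h3 : lo r * Real.log x ≤ Real.log q := by
        rw [← Real.log_rpow hx0]
        exact Real.log_le_log (by positivity) hqr.2.2.le
      have h4 : lo r ≤ Real.log q / Real.log x := (le_div_iff₀ hL).2 h3
      linarith
    refine h2.trans ?_
    have h5 := Finset.single_le_sum (f := fun r => if q ∈ prs (x ^ lo r) (x ^ hi r) then
      (1 : ℝ) / 2 ^ r else 0) (fun r _ => by
        split_ifs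
        · positivity
        · exact le_rfl) hr
    simp only [if_pos hqr] at h5
    exact h5
  refine (Finset.sum_le_sum h1).trans ?_
  rw [Finset.sum_comm]
  refine Finset.sum_le_sum fun r _ => ?_
  rw [← Finset.sum_filter, Finset.sum_const, nsmul_eq_mul, mul_comm]
  refine mul_le_mul_of_nonneg_left ?_ (by positivity)
  have h6 : T.filter (fun q => q ∈ prs (x ^ lo r) (x ^ hi r)) ⊆
      (prs (x ^ lo r) (x ^ hi r)).filter (fun q : ℕ => (q : ℤ) ∣ fv d k p) := by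
    intro q hq
    rw [Finset.mem_filter] at hq ⊢
    exact ⟨hq.2, (Finset.mem_filter.1 hq.1).2⟩
  exact_mod_cast Finset.card_le_card h6

private theorem Yb_bp_pos {b : ℕ → ℝ} (hb : ∀ i, 2 ≤ b i) (i : ℕ) : 0 < bp b i :=
  Finset.prod_pos fun j _ => by linarith [hb j]

private theorem Yb_bt_nonneg {b : ℕ → ℝ} (hb : ∀ i, 2 ≤ b i) (J : ℕ) : 0 ≤ bt b J :=
  Finset.sum_nonneg fun i _ => div_nonneg (by linarith [hb i]) (Yb_bp_pos hb i).le

theorem tYb (hLwc : S_Lwc) (hUpf : S_Upf) (hSm : S_Sm) : S_Yb := by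
  intro d k w a hD b J hB hlog
  have hfin : ∀ᶠ x : ℝ in atTop, ∀ r ∈ range (Nat.log 2 d + 1),
      ∑ p ∈ Gs d k w a b J x, (((prs (x ^ lo r) (x ^ hi r)).filter
        (fun q : ℕ => (q : ℤ) ∣ fv d k p)).card : ℝ) ≤
      6500 * 2 ^ r * (∏ i ∈ range J, El b r i) * (Xx w x * Vx d k w (1 / 400) x) := by
    rw [Filter.eventually_all_finset]
    exact fun r _ => hUpf d k w a hD b J r hB
  filter_upwards [hfin, hLwc d k w a hD b J hB, eventually_gt_atTop (1 : ℝ)] with x h1 h2 h3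
  have hX0 : 0 ≤ Xx w x := by
    have := Real.log_pos h3
    unfold Xx
    positivity
  have hV0 : 0 ≤ Vx d k w (1 / 400) x := by
    unfold Vx
    refine Finset.prod_nonneg fun l hl => ?_
    rw [Yb_prs] at hl
    have h4 : (rt d k l : ℝ) ≤ d := by exact_mod_cast hD.rd l hl.2.1
    have h5 : (4 * d + 4 : ℝ) ≤ w := by exact_mod_cast hD.hdw
    have h6 : (0 : ℝ) ≤ d := Nat.cast_nonneg d
    have h7 := hl.2.2
    rw [sub_nonneg, div_le_one (by linarith)]
    linarith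
  have h4 : ∑ p ∈ Gs d k w a b J x, Yp d k x p ≤
      ∑ p ∈ Gs d k w a b J x, ∑ r ∈ range (Nat.log 2 d + 1), 1 / 2 ^ r *
      (((prs (x ^ lo r) (x ^ hi r)).filter (fun q : ℕ => (q : ℤ) ∣ fv d k p)).card : ℝ) :=
    Finset.sum_le_sum fun p _ => Yb_Yp hD.hd h3 p
  refine h4.trans ?_
  rw [Finset.sum_comm]
  have h5 : ∀ r ∈ range (Nat.log 2 d + 1), ∑ p ∈ Gs d k w a b J x, 1 / 2 ^ r *
      (((prs (x ^ lo r) (x ^ hi r)).filter (fun q : ℕ => (q : ℤ) ∣ fv d k p)).card : ℝ) ≤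
      6500 * (Xx w x * Vx d k w (1 / 400) x) * ∏ i ∈ range J, El b r i := by
    intro r hr
    rw [← Finset.mul_sum]
    have h6 := mul_le_mul_of_nonneg_left (h1 r hr) (show (0 : ℝ) ≤ 1 / 2 ^ r by positivity)
    refine h6.trans (le_of_eq ?_)
    field_simp
  refine (Finset.sum_le_sum h5).trans ?_
  rw [← Finset.mul_sum]
  have h6 := hSm b J d hB hD.hd hlog
  have h7 : 0 ≤ Xx w x * Vx d k w (1 / 400) x := mul_nonneg hX0 hV0
  have h8 := Yb_bt_nonneg hB J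
  calc 6500 * (Xx w x * Vx d k w (1 / 400) x) *
        ∑ r ∈ range (Nat.log 2 d + 1), ∏ i ∈ range J, El b r i ≤
        6500 * (Xx w x * Vx d k w (1 / 400) x) * ((7 / 2 + 3 * bt b J) * bp b J) := by gcongr
    _ = 52000 * (7 / 2 + 3 * bt b J) * (1 / 8 * (Xx w x * bp b J * Vx d k w (1 / 400) x)) := by ring
    _ ≤ 52000 * (7 / 2 + 3 * bt b J) * ((Gs d k w a b J x).card : ℝ) := by gcongr

end Pool.Agent.MPdff.V
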