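import Pool.Agent.Lib.MP_dff12b_nt.SpecV

/-!
MP_dff12b_nt, part G, module Om: the number of prime factors of f(p) for p in G.
-/

namespace Pool.Agent.MPdff.V

open Finset Filter Topology Pool.Agent.Results.MP_00e23e_nt

private lemma Om_mem_prs {u v : ℝ} (hv : 0 ≤ v) {l : ℕ} :
    l ∈ prs u v ↔ (l.Prime ∧ u < l ∧ (l : ℝ) ≤ v) := by
  unfold prs
  rw [mem_filter, mem_Icc]
  constructor
  · rintro ⟨⟨_, h2⟩, h3, h4⟩
    exact ⟨h3, h4, (Nat.le_floor_iff hv).1 h2⟩
  · rintro ⟨h1, h2, h3⟩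
    exact ⟨⟨h1.one_lt.le, (Nat.le_floor_iff hv).2 h3⟩, h1, h2⟩

private lemma Om_be_anti {B : ℕ → ℝ} (hB : ∀ i, 2 ≤ B i) {i j : ℕ} (hij : i ≤ j) : be B j ≤ be B i := by
  have h1 : bs B i ≤ bs B j := by
    unfold bs
    apply Finset.sum_le_sum_of_subset_of_nonneg (Finset.range_mono hij)
    intro m _ _
    linarith [hB m]
  have h2 : Real.exp (-(bs B j)) ≤ Real.exp (-(bs B i)) := by
    apply Real.exp_le_exp.2
    linarith
  unfold be
  linarith

private lemma Om_be_zero (B : ℕ → ℝ) : be B 0 = 1 / 400 := by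
  unfold be bs
  simp

private lemma Om_cardFactors (n : ℕ) :
    ArithmeticFunction.cardFactors n = ∑ q ∈ n.primeFactors, n.factorization q := by
  rw [ArithmeticFunction.cardFactors_apply]
  have h := List.sum_toFinset_count_eq_length n.primeFactorsList
  rw [← h]
  apply Finset.sum_congr rfl
  intro q _
  rw [Nat.primeFactorsList_count_eq]

private lemma Om_log (n : ℕ) :
    Real.log n = ∑ q ∈ n.primeFactors, (n.factorization q : ℝ) * Real.log q := by
  rw [Real.log_nat_eq_sum_factorization]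
  rfl

theorem tOm : S_Om := by
  intro d k w a hD B J x p n hB hx hw hp hn hnf hsq
  have hx0 : 0 < x := by linarith
  have hx1 : 1 ≤ x := by linarith
  have hL : 0 < Real.log x := Real.log_pos (by linarith)
  have hd3 : (3 : ℝ) ≤ d := by exact_mod_cast hD.hd
  have hd0 : (0 : ℝ) < d := by linarith
  have hinv : 1 / (d : ℝ) ≤ 1 / 3 := by
    apply one_div_le_one_div_of_le (by norm_num) hd3
  have hu : (2 : ℝ) / 3 ≤ 1 - 1 / (d : ℝ) := by linarith
  have hu1 : 1 - 1 / (d : ℝ) ≤ 1 := by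
    have : 0 < 1 / (d : ℝ) := by positivity
    linarith
  unfold Gs at hp
  rw [mem_filter] at hp
  obtain ⟨_, hpp, hpx, hpa, hpf⟩ := hp
  have hdvd : ∀ q : ℕ, q ∣ n ↔ (q : ℤ) ∣ fv d k p := by
    intro q
    rw [← hnf, Int.natCast_dvd_natCast]
  -- all prime factors are large
  have hbe0 : be B J ≤ 1 / 400 := by
    have := Om_be_anti hB (Nat.zero_le J)
    rwa [Om_be_zero] at this
  have hnot : ∀ q : ℕ, q.Prime → q ∣ n → w < q := by
    intro q hq hqn
    by_contra hqw
    push Not at hqw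
    have h1 : q ∣ primorial w := hq.dvd_primorial_iff.2 hqw
    have h2 : p ≡ a [MOD q] := hpa.of_dvd h1
    have h3 : (q : ℤ) ∣ fv d k p := (hdvd q).1 hqn
    have h4 : (q : ℤ) ∣ fv d k a := by
      have h5 : ((p : ℤ) ≡ (a : ℤ) [ZMOD q]) := (Int.natCast_modEq_iff).2 h2
      have h6 : fv d k p ≡ fv d k a [ZMOD q] := by
        unfold fv
        exact (h5.pow d).add_right k
      have h7 := dvd_add h6.dvd h3
      rwa [sub_add_cancel] at h7
    have h7 : (q : ℤ) ∣ ((primorial w : ℕ) : ℤ) := by exact_mod_cast h1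
    have h8 : (q : ℤ) ∣ (Int.gcd (fv d k a) (primorial w) : ℤ) := Int.dvd_coe_gcd h4 h7
    rw [hD.cf] at h8
    have h9 : q ∣ 1 := by exact_mod_cast h8
    exact hq.one_lt.ne' (Nat.dvd_one.1 h9)
  have hfam := hpf
  simp only [fam, Finset.mem_filter, Finset.mem_powerset] at hfam
  obtain ⟨hsub, hcard⟩ := hfam
  have hy400 : (0 : ℝ) ≤ x ^ ((1 : ℝ) / 400) := by positivity
  have hbig : ∀ q : ℕ, q.Prime → q ∣ n → x ^ be B J < q := by
    intro q hq hqn
    by_cases h : (q : ℝ) ≤ x ^ ((1 : ℝ) / 400)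
    · have h1 : q ∈ Dv d k w (x ^ ((1 : ℝ) / 400)) p := by
        unfold Dv
        rw [mem_filter, Om_mem_prs hy400]
        exact ⟨⟨hq, by exact_mod_cast hnot q hq hqn, h⟩, (hdvd q).1 hqn⟩
      have h2 := hsub h1
      rw [mem_biUnion] at h2
      obtain ⟨i, hi, hqi⟩ := h2
      unfold wn at hqi
      rw [Om_mem_prs (by positivity)] at hqi
      have hi' : i + 1 ≤ J := by
        have := mem_range.1 hi
        omega
      have h3 : x ^ be B J ≤ x ^ be B (i + 1) :=
        Real.rpow_le_rpow_of_exponent_le hx1 (Om_be_anti hB hi')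
      linarith [hqi.2.1]
    · push Not at h
      have h3 : x ^ be B J ≤ x ^ ((1 : ℝ) / 400) :=
        Real.rpow_le_rpow_of_exponent_le hx1 hbe0
      linarith
  refine ⟨?_, hbig⟩
  set y : ℝ := x ^ (1 - 1 / (d : ℝ)) with hy
  have hy0 : 0 < y := by positivity
  have hlogy : Real.log y = (1 - 1 / (d : ℝ)) * Real.log x := by
    rw [hy, Real.log_rpow hx0]
  have hlogy0 : 0 < Real.log y := by
    rw [hlogy]
    apply mul_pos (by linarith) hL
  have hlogyx : Real.log y ≤ Real.log x := by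
    rw [hlogy]
    nlinarith
  have hxy : x ^ ((1 : ℝ) / 400) ≤ y := by
    rw [hy]
    apply Real.rpow_le_rpow_of_exponent_le hx1
    linarith
  have hfac1 : ∀ q ∈ n.primeFactors, (q : ℝ) ≤ y → n.factorization q = 1 := by
    intro q hq hqy
    have hqp := Nat.prime_of_mem_primeFactors hq
    have hqn := Nat.dvd_of_mem_primeFactors hq
    have h1 : 1 ≤ n.factorization q := (hqp.dvd_iff_one_le_factorization hn.ne').1 hqn
    have h2 : ¬ 2 ≤ n.factorization q := by
      intro h2
      apply hsq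
      refine ⟨q, (Om_mem_prs hy0.le).2 ⟨hqp, hbig q hqp hqn, hqy⟩, ?_⟩
      have h3 : q ^ 2 ∣ n := (hqp.pow_dvd_iff_le_factorization hn.ne').2 h2
      rw [← hnf]
      exact_mod_cast h3
    omega
  classical
  set c : ℕ → ℝ := fun q => if (q : ℝ) ≤ x ^ ((1 : ℝ) / 400) then 1 else
    if (q : ℝ) ≤ y then 1 - Real.log q / Real.log x else 0 with hc
  have hterm : ∀ q ∈ n.primeFactors, (n.factorization q : ℝ) ≤
      c q + (n.factorization q : ℝ) * Real.log q / Real.log y := by
    intro q hq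
    have hqp := Nat.prime_of_mem_primeFactors hq
    have hq1 : (1 : ℝ) ≤ q := by exact_mod_cast hqp.one_lt.le
    have hlq : 0 ≤ Real.log q := Real.log_nonneg hq1
    have hnn : 0 ≤ (n.factorization q : ℝ) * Real.log q / Real.log y := by positivity
    simp only [hc]
    by_cases h1 : (q : ℝ) ≤ x ^ ((1 : ℝ) / 400)
    · rw [if_pos h1, hfac1 q hq (h1.trans hxy)]
      rw [hfac1 q hq (h1.trans hxy)] at hnn
      push_cast at hnn ⊢
      linarith
    · rw [if_neg h1]
      by_cases h2 : (q : ℝ) ≤ y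
      · rw [if_pos h2, hfac1 q hq h2]
        have h3 : Real.log q / Real.log x ≤ Real.log q / Real.log y :=
          div_le_div_of_nonneg_left hlq hlogy0 hlogyx
        push_cast
        rw [one_mul]
        linarith
      · rw [if_neg h2]
        push Not at h2
        have h3 : Real.log y ≤ Real.log q := Real.log_le_log hy0 h2.le
        rw [zero_add, le_div_iff₀ hlogy0]
        exact mul_le_mul_of_nonneg_left h3 (Nat.cast_nonneg _)
  have hsum := Finset.sum_le_sum hterm
  rw [Finset.sum_add_distrib, ← Finset.sum_div, ← Om_log] at hsum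
  have hΩ : (ArithmeticFunction.cardFactors n : ℝ) =
      ∑ q ∈ n.primeFactors, (n.factorization q : ℝ) := by
    rw [Om_cardFactors]
    push_cast
    rfl
  rw [hΩ, ← hlogy]
  have hcsum : ∑ q ∈ n.primeFactors, c q ≤ J + Yp d k x p := by
    have hsplit : ∑ q ∈ n.primeFactors, c q =
        ((n.primeFactors.filter (fun q : ℕ => (q : ℝ) ≤ x ^ ((1 : ℝ) / 400))).card : ℝ) +
        ∑ q ∈ (n.primeFactors.filter (fun q : ℕ => ¬ (q : ℝ) ≤ x ^ ((1 : ℝ) / 400))).filter
          (fun q : ℕ => (q : ℝ) ≤ y), (1 - Real.log q / Real.log x) := by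
      rw [← Finset.sum_filter_add_sum_filter_not n.primeFactors
        (fun q : ℕ => (q : ℝ) ≤ x ^ ((1 : ℝ) / 400))]
      congr 1
      · rw [Finset.card_eq_sum_ones]
        push_cast
        apply Finset.sum_congr rfl
        intro q hq
        simp only [hc]
        rw [if_pos (mem_filter.1 hq).2]
      · rw [Finset.sum_filter (fun q : ℕ => (q : ℝ) ≤ y)]
        apply Finset.sum_congr rfl
        intro q hq
        simp only [hc]
        rw [if_neg (mem_filter.1 hq).2]
    rw [hsplit]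
    apply add_le_add
    · have h1 : n.primeFactors.filter (fun q : ℕ => (q : ℝ) ≤ x ^ ((1 : ℝ) / 400)) ⊆
          (range J).biUnion (fun i => Dv d k w (x ^ ((1 : ℝ) / 400)) p ∩ wn B x i) := by
        intro q hq
        rw [mem_filter] at hq
        have hqp := Nat.prime_of_mem_primeFactors hq.1
        have hqn := Nat.dvd_of_mem_primeFactors hq.1
        have h1 : q ∈ Dv d k w (x ^ ((1 : ℝ) / 400)) p := by
          unfold Dv
          rw [mem_filter, Om_mem_prs hy400]
          exact ⟨⟨hqp, by exact_mod_cast hnot q hqp hqn, hq.2⟩, (hdvd q).1 hqn⟩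
        have h2 := hsub h1
        rw [mem_biUnion] at h2 ⊢
        obtain ⟨i, hi, hqi⟩ := h2
        exact ⟨i, hi, mem_inter.2 ⟨h1, hqi⟩⟩
      have h2 := (Finset.card_le_card h1).trans Finset.card_biUnion_le
      have h3 : ∑ i ∈ range J, (Dv d k w (x ^ ((1 : ℝ) / 400)) p ∩ wn B x i).card ≤ J := by
        calc ∑ i ∈ range J, (Dv d k w (x ^ ((1 : ℝ) / 400)) p ∩ wn B x i).card
            ≤ ∑ i ∈ range J, 1 := Finset.sum_le_sum (fun i hi => (hcard i hi).2)
          _ = J := by simp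
      exact_mod_cast h2.trans h3
    · unfold Yp
      apply le_of_eq
      apply Finset.sum_congr _ (fun _ _ => rfl)
      ext q
      rw [mem_filter, mem_filter, mem_filter, Om_mem_prs (by positivity), Nat.mem_primeFactors]
      constructor
      · rintro ⟨⟨⟨h1, h2, _⟩, h4⟩, h5⟩
        exact ⟨⟨h1, not_le.1 h4, h5⟩, (hdvd q).1 h2⟩
      · rintro ⟨⟨h1, h2, h3⟩, h4⟩
        exact ⟨⟨⟨h1, (hdvd q).2 h4, hn.ne'⟩, not_le.2 h2⟩, h3⟩
  linarith

end Pool.Agent.MPdff.V
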